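import Mathlib

namespace Pool.Agent.Helper97.QW

open Polynomial

/-- for all but finitely many scalars `τ`, `x - τ` is a nonzerodivisor modulo `I` -/
theorem finite_bad {k R : Type*} [Field k] [CommRing R] [Algebra k R] [IsNoetherianRing R]
    (I : Ideal R) (x : R) :
    {τ : k | ¬ ∀ b : R, (x - algebraMap k R τ) * b ∈ I → b ∈ I}.Finite := by
  have hfin : (associatedPrimes (R ⧸ I) (R ⧸ I)).Finite := associatedPrimes.finite _ _
  have key : ∀ τ : k, (¬ ∀ b : R, (x - algebraMap k R τ) * b ∈ I → b ∈ I) →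
      ∃ P ∈ associatedPrimes (R ⧸ I) (R ⧸ I),
        Ideal.Quotient.mk I (x - algebraMap k R τ) ∈ P := by
    intro τ hτ
    push Not at hτ
    obtain ⟨b, hb, hb'⟩ := hτ
    have h1 : Ideal.Quotient.mk I (x - algebraMap k R τ) ∈
        {r : R ⧸ I | ∃ y : R ⧸ I, y ≠ 0 ∧ r • y = 0} := by
      refine ⟨Ideal.Quotient.mk I b, ?_, ?_⟩
      · rwa [Ne, Ideal.Quotient.eq_zero_iff_mem]
      · rw [smul_eq_mul, ← map_mul, Ideal.Quotient.eq_zero_iff_mem]
        exact hb
    rw [← biUnion_associatedPrimes_eq_zero_divisors] at h1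
    simpa using h1
  choose! P hP hmem using key
  refine Set.Finite.of_finite_image (f := P) (hfin.subset ?_) ?_
  · rintro _ ⟨τ, hτ, rfl⟩
    exact hP τ hτ
  · intro τ hτ τ' hτ' he
    by_contra hne
    have h1 := hmem τ hτ
    have h2 := hmem τ' hτ'
    rw [he] at h1
    have h3 := (P τ').sub_mem h2 h1
    rw [← map_sub] at h3
    have h4 : x - algebraMap k R τ' - (x - algebraMap k R τ) = algebraMap k R (τ - τ') := by
      rw [map_sub]; ring
    rw [h4] at h3
    have h5 : IsUnit (Ideal.Quotient.mk I (algebraMap k R (τ - τ'))) := by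
      have : IsUnit (τ - τ') := (sub_ne_zero.2 hne).isUnit
      exact (this.map (algebraMap k R)).map (Ideal.Quotient.mk I)
    have h6 : (P τ').IsPrime := (hP τ' hτ').isPrime
    exact h6.ne_top (Ideal.eq_top_of_isUnit_mem _ h3 h5)

variable {k R : Type*} [Field k] [CommRing R] [Algebra k R]

/-- the abstract specialisation lemma -/
theorem core (p : Ideal R) [hp : p.IsPrime] (x δ : R) (hδ : δ ∉ p) (τ : k)
    (Θ : R →ₐ[k] FractionRing (R ⧸ p))
    (ha : Θ x = algebraMap k _ τ) (hb : ∀ f ∈ p, Θ f = 0)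
    (hc : ∀ f : R, ∃ N : ℕ, ∃ g : R,
      algebraMap (R ⧸ p) (FractionRing (R ⧸ p)) (Ideal.Quotient.mk p g) =
        algebraMap (R ⧸ p) (FractionRing (R ⧸ p)) (Ideal.Quotient.mk p (δ ^ N)) * Θ f ∧
      g - δ ^ N * f ∈ Ideal.span {x - algebraMap k R τ})
    (hd : Θ δ = algebraMap (R ⧸ p) (FractionRing (R ⧸ p)) (Ideal.Quotient.mk p δ))
    (he : ∀ f : R, ∃ N : ℕ, ∃ g : R[X],
      eval₂ (Θ : R →+* FractionRing (R ⧸ p))
        (algebraMap (R ⧸ p) (FractionRing (R ⧸ p))
          (Ideal.Quotient.mk p (x - algebraMap k R τ))) g =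
        algebraMap (R ⧸ p) (FractionRing (R ⧸ p)) (Ideal.Quotient.mk p (δ ^ N * f)))
    (hf : x - algebraMap k R τ ∉ p)
    (hg : ∀ h : R, δ * h ∈ p ⊔ Ideal.span {x - algebraMap k R τ} →
      h ∈ p ⊔ Ideal.span {x - algebraMap k R τ}) :
    ∃ hq : (p ⊔ Ideal.span {x - algebraMap k R τ}).IsPrime,
      Nonempty (FractionRing (R ⧸ p) ≃ₐ[k]
        FractionRing ((R ⧸ (p ⊔ Ideal.span {x - algebraMap k R τ}))[X])) := by
  classical
  set q : Ideal R := p ⊔ Ideal.span {x - algebraMap k R τ} with hqdef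
  set bar : R →+* FractionRing (R ⧸ p) :=
    (algebraMap (R ⧸ p) (FractionRing (R ⧸ p))).comp (Ideal.Quotient.mk p) with hbar
  have hbar0 : ∀ r, bar r = 0 → r ∈ p := by
    intro r hr
    have h1 : Ideal.Quotient.mk p r = 0 :=
      (IsFractionRing.injective (R ⧸ p) (FractionRing (R ⧸ p))) (by rw [map_zero]; exact hr)
    exact Ideal.Quotient.eq_zero_iff_mem.1 h1
  have hbarδ : bar δ ≠ 0 := fun h => hδ (hbar0 _ h)
  set y : FractionRing (R ⧸ p) := bar (x - algebraMap k R τ) with hy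
  have hy0 : y ≠ 0 := fun h => hf (hbar0 _ h)
  have hspan : Ideal.span {x - algebraMap k R τ} ≤ q := le_sup_right
  have hpq : p ≤ q := le_sup_left
  have hpow : ∀ (N : ℕ) (f : R), δ ^ N * f ∈ q → f ∈ q := by
    intro N
    induction N with
    | zero => intro f hf'; simpa using hf'
    | succ N ih =>
      intro f hf'
      apply ih
      apply hg
      rw [pow_succ'] at hf'
      rw [← mul_assoc]
      exact hf'
  have hlow : ∀ f ∈ q, Θ f = 0 := by
    intro f hf'
    have hle : q ≤ RingHom.ker (Θ : R →+* FractionRing (R ⧸ p)) := by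
      rw [hqdef]
      refine sup_le (fun g hg' => hb g hg') ?_
      rw [Ideal.span_le, Set.singleton_subset_iff]
      change Θ _ = 0
      rw [map_sub, ha, AlgHom.commutes, sub_self]
    exact hle hf'
  -- the lifting property for polynomials
  have hlift : ∀ P : R[X], ∃ N : ℕ, ∃ g : R,
      bar g = bar (δ ^ N) * eval₂ (Θ : R →+* FractionRing (R ⧸ p)) y P ∧
      g - δ ^ N * P.coeff 0 ∈ Ideal.span {x - algebraMap k R τ} := by
    intro P
    induction P using Polynomial.induction_on' with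
    | add P₁ P₂ h₁ h₂ =>
      obtain ⟨N₁, g₁, e₁, m₁⟩ := h₁
      obtain ⟨N₂, g₂, e₂, m₂⟩ := h₂
      refine ⟨N₁ + N₂, δ ^ N₂ * g₁ + δ ^ N₁ * g₂, ?_, ?_⟩
      · rw [eval₂_add, map_add, map_mul, map_mul, e₁, e₂, pow_add, map_mul]
        ring
      · rw [coeff_add]
        have : δ ^ N₂ * g₁ + δ ^ N₁ * g₂ - δ ^ (N₁ + N₂) * (P₁.coeff 0 + P₂.coeff 0) =
          δ ^ N₂ * (g₁ - δ ^ N₁ * P₁.coeff 0) + δ ^ N₁ * (g₂ - δ ^ N₂ * P₂.coeff 0) := by
          rw [pow_add]; ring
        rw [this]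
        exact Ideal.add_mem _ (Ideal.mul_mem_left _ _ m₁) (Ideal.mul_mem_left _ _ m₂)
    | monomial n a =>
      obtain ⟨N, g, e, m⟩ := hc a
      cases n with
      | zero =>
        refine ⟨N, g, ?_, ?_⟩
        · rw [eval₂_monomial, pow_zero, mul_one]; exact e
        · rw [coeff_monomial, if_pos rfl]; exact m
      | succ n =>
        refine ⟨N, g * (x - algebraMap k R τ) ^ (n + 1), ?_, ?_⟩
        · rw [eval₂_monomial, map_mul, map_pow, ← hy, ← mul_assoc]
          congr 1
        · rw [coeff_monomial, if_neg (by omega), mul_zero, sub_zero, pow_succ]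
          exact Ideal.mul_mem_left _ _ (Ideal.mul_mem_left _ _ (Ideal.mem_span_singleton_self _))
  have hcoeff : ∀ P : R[X], eval₂ (Θ : R →+* FractionRing (R ⧸ p)) y P = 0 → P.coeff 0 ∈ q := by
    intro P hP
    obtain ⟨N, g, e, m⟩ := hlift P
    rw [hP, mul_zero] at e
    have h1 : g ∈ q := hpq (hbar0 _ e)
    have h2 : δ ^ N * P.coeff 0 ∈ q := by
      have := q.sub_mem h1 (hspan m)
      rwa [sub_sub_cancel] at this
    exact hpow _ _ h2
  have hker : ∀ f, Θ f = 0 → f ∈ q := by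
    intro f hf'
    have := hcoeff (C f) (by rw [eval₂_C]; exact hf')
    rwa [coeff_C_zero] at this
  have hqker : q = RingHom.ker (Θ : R →+* FractionRing (R ⧸ p)) := by
    ext f
    exact ⟨fun h => hlow f h, fun h => hker f h⟩
  have hqp : q.IsPrime := by
    rw [hqker]
    exact RingHom.ker_isPrime _
  refine ⟨hqp, ?_⟩
  let Θ' : (R ⧸ q) →ₐ[k] FractionRing (R ⧸ p) := Ideal.Quotient.liftₐ q Θ hlow
  let Ψ : (R ⧸ q)[X] →ₐ[k] FractionRing (R ⧸ p) := Polynomial.eval₂AlgHom Θ' y (fun a => Commute.all _ _)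
  have hΨ : ∀ P : R[X], Ψ (P.map (Ideal.Quotient.mk q)) =
      eval₂ (Θ : R →+* FractionRing (R ⧸ p)) y P := by
    intro P
    change eval₂ _ y (P.map _) = _
    rw [eval₂_map]
    rfl
  have hΨinj : Function.Injective Ψ := by
    rw [injective_iff_map_eq_zero]
    have hall : ∀ n : ℕ, ∀ P : (R ⧸ q)[X], P.natDegree < n → Ψ P = 0 → P = 0 := by
      intro n
      induction n with
      | zero => intro P hn; omega
      | succ n ih =>
        intro P hn hP
        have h0 : P.coeff 0 = 0 := by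
          obtain ⟨P', rfl⟩ := Polynomial.map_surjective (Ideal.Quotient.mk q)
            Ideal.Quotient.mk_surjective P
          rw [hΨ] at hP
          rw [coeff_map, Ideal.Quotient.eq_zero_iff_mem]
          exact hcoeff P' hP
        have h1 : P = X * P.divX := by
          have := Polynomial.divX_mul_X_add P
          rw [h0, C_0, add_zero] at this
          rw [mul_comm]
          exact this.symm
        have h2 : Ψ P.divX = 0 := by
          rw [h1, map_mul] at hP
          have h3 : Ψ X = y := by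
            change eval₂ _ y X = y
            rw [eval₂_X]
          rw [h3] at hP
          exact (mul_eq_zero.1 hP).resolve_left hy0
        have h4 : P.divX = 0 := by
          by_cases hd0 : P.natDegree = 0
          · rw [eq_C_of_natDegree_eq_zero hd0, divX_C]
          · apply ih _ _ h2
            rw [natDegree_divX_eq_natDegree_tsub_one]
            omega
        rw [h1, h4, mul_zero]
    intro P hP
    exact hall (P.natDegree + 1) P (Nat.lt_succ_self _) hP
  have : (p ⊔ Ideal.span {x - algebraMap k R τ}).IsPrime := hqp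
  let Λ : FractionRing ((R ⧸ q)[X]) →ₐ[k] FractionRing (R ⧸ p) :=
    IsFractionRing.liftAlgHom (R := k) (A := (R ⧸ q)[X]) (K := FractionRing ((R ⧸ q)[X])) hΨinj
  have hΛ : ∀ P : (R ⧸ q)[X], Λ (algebraMap _ _ P) = Ψ P := by
    intro P
    exact IsFractionRing.lift_algebraMap hΨinj P
  have hbarΛ : ∀ f : R, ∃ z, Λ z = bar f := by
    intro f
    obtain ⟨N, g, e⟩ := he f
    refine ⟨algebraMap _ _ (g.map (Ideal.Quotient.mk q)) /
      algebraMap _ _ ((C (δ ^ N) : R[X]).map (Ideal.Quotient.mk q)), ?_⟩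
    rw [map_div₀, hΛ, hΛ, hΨ, hΨ, eval₂_C]
    have h1 : (Θ : R →+* FractionRing (R ⧸ p)) (δ ^ N) = bar (δ ^ N) := by
      rw [map_pow, map_pow]
      congr 1
    rw [h1]
    have h2 : eval₂ (Θ : R →+* FractionRing (R ⧸ p)) y g = bar (δ ^ N * f) := e
    rw [h2, map_mul]
    field_simp
  refine ⟨(AlgEquiv.ofBijective Λ ⟨Λ.toRingHom.injective, ?_⟩).symm⟩
  intro z
  obtain ⟨a, b, hb0, rfl⟩ := IsFractionRing.div_surjective (A := R ⧸ p) z
  obtain ⟨a, rfl⟩ := Ideal.Quotient.mk_surjective a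
  obtain ⟨b, rfl⟩ := Ideal.Quotient.mk_surjective b
  obtain ⟨z1, h1⟩ := hbarΛ a
  obtain ⟨z2, h2⟩ := hbarΛ b
  exact ⟨z1 / z2, by rw [map_div₀, h1, h2]; rfl⟩

end Pool.Agent.Helper97.QW
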