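import Mathlib
import Pool.Agent.Helper97.QW.Core

namespace Pool.Agent.Helper97.QW

open MvPolynomial

/-- the reduction followed by the inclusion in the fraction field -/
noncomputable def bar {R : Type*} [CommRing R] (p : Ideal R) : R →+* FractionRing (R ⧸ p) :=
  (algebraMap (R ⧸ p) (FractionRing (R ⧸ p))).comp (Ideal.Quotient.mk p)

lemma bar_eq_zero_iff {R : Type*} [CommRing R] (p : Ideal R) [p.IsPrime] (r : R) :
    bar p r = 0 ↔ r ∈ p := by
  rw [bar, RingHom.comp_apply]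
  constructor
  · intro hr
    have h1 : Ideal.Quotient.mk p r = 0 :=
      (IsFractionRing.injective (R ⧸ p) (FractionRing (R ⧸ p))) (by rw [map_zero]; exact hr)
    exact Ideal.Quotient.eq_zero_iff_mem.1 h1
  · intro hr
    rw [Ideal.Quotient.eq_zero_iff_mem.2 hr, map_zero]

lemma bar_C {k σ : Type*} [Field k] (p : Ideal (MvPolynomial σ k)) (a : k) :
    bar p (C a) = algebraMap k _ a := rfl

/-- the homomorphism `X_v ↦ X_v - (c_v / δ) (x - τ)` -/
noncomputable def Th {k σ : Type*} [Field k] (p : Ideal (MvPolynomial σ k)) [p.IsPrime]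
    (c : σ → MvPolynomial σ k) (v0 : σ) (τ : k) :
    MvPolynomial σ k →ₐ[k] FractionRing (MvPolynomial σ k ⧸ p) :=
  aeval (fun v => bar p (X v) - bar p (c v) / bar p (c v0) * bar p (X v0 - C τ))

lemma Th_X {k σ : Type*} [Field k] (p : Ideal (MvPolynomial σ k)) [p.IsPrime]
    (c : σ → MvPolynomial σ k) (v0 : σ) (τ : k) (v : σ) :
    Th p c v0 τ (X v) =
      bar p (X v) - bar p (c v) / bar p (c v0) * bar p (X v0 - C τ) := aeval_X _ _

lemma Th_C {k σ : Type*} [Field k] (p : Ideal (MvPolynomial σ k)) [p.IsPrime]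
    (c : σ → MvPolynomial σ k) (v0 : σ) (τ : k) (a : k) :
    Th p c v0 τ (C a) = bar p (C a) := AlgHom.commutes _ _

theorem step_aux {k σ : Type*} [Field k] (p : Ideal (MvPolynomial σ k)) [hp : p.IsPrime]
    (c : σ → MvPolynomial σ k) (v0 : σ) (hc0 : c v0 ∉ p) (τ : k)
    (hΘc : ∀ v, Th p c v0 τ (c v) = bar p (c v))
    (hΘp : ∀ f ∈ p, Th p c v0 τ f = 0)
    (hg2 : X v0 - C τ ∉ p)
    (hg1 : ∀ b, (X v0 - C τ) * b ∈ p ⊔ Ideal.span {c v0} → b ∈ p ⊔ Ideal.span {c v0}) :
    ∃ _ : (p ⊔ Ideal.span {X v0 - C τ}).IsPrime,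
      Nonempty (FractionRing (MvPolynomial σ k ⧸ p) ≃ₐ[k]
        FractionRing (Polynomial (MvPolynomial σ k ⧸ (p ⊔ Ideal.span {X v0 - C τ})))) := by
  have hbarδ : bar p (c v0) ≠ 0 := fun h => hc0 ((bar_eq_zero_iff p _).1 h)
  have key := core (k := k) p (X v0) (c v0) hc0 τ (Th p c v0 τ) ?_ hΘp ?_ ?_ ?_ hg2 ?_
  · exact key
  · rw [Th_X, div_self hbarδ, one_mul, map_sub, bar_C]
    ring
  · intro f
    change ∃ N : ℕ, ∃ g : MvPolynomial σ k, bar p g = bar p (c v0 ^ N) * Th p c v0 τ f ∧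
      g - c v0 ^ N * f ∈ Ideal.span {X v0 - C τ}
    induction f using MvPolynomial.induction_on with
    | C a =>
      refine ⟨0, C a, ?_, ?_⟩
      · rw [pow_zero, map_one, one_mul, Th_C]
      · rw [pow_zero, one_mul, sub_self]
        exact Ideal.zero_mem _
    | add f₁ f₂ h₁ h₂ =>
      obtain ⟨N₁, g₁, e₁, m₁⟩ := h₁
      obtain ⟨N₂, g₂, e₂, m₂⟩ := h₂
      refine ⟨N₁ + N₂, c v0 ^ N₂ * g₁ + c v0 ^ N₁ * g₂, ?_, ?_⟩
      · rw [map_add, map_mul, map_mul, e₁, e₂, pow_add, map_mul, map_add]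
        ring
      · have : c v0 ^ N₂ * g₁ + c v0 ^ N₁ * g₂ - c v0 ^ (N₁ + N₂) * (f₁ + f₂) =
          c v0 ^ N₂ * (g₁ - c v0 ^ N₁ * f₁) + c v0 ^ N₁ * (g₂ - c v0 ^ N₂ * f₂) := by
          rw [pow_add]; ring
        rw [this]
        exact Ideal.add_mem _ (Ideal.mul_mem_left _ _ m₁) (Ideal.mul_mem_left _ _ m₂)
    | mul_X f v h =>
      obtain ⟨N, g, e, mm⟩ := h
      refine ⟨N + 1, g * (c v0 * X v - c v * (X v0 - C τ)), ?_, ?_⟩
      · rw [map_mul, e, map_mul, Th_X, map_sub, map_mul, map_mul, pow_succ, map_mul]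
        generalize bar p (X v0 - C τ) = y
        generalize bar p (X v) = xv
        generalize bar p (c v) = cv
        generalize Th p c v0 τ f = t
        generalize bar p (c v0 ^ N) = dN
        field_simp
      · have : g * (c v0 * X v - c v * (X v0 - C τ)) - c v0 ^ (N + 1) * (f * X v) =
          (c v0 * X v) * (g - c v0 ^ N * f) - (g * c v) * (X v0 - C τ) := by
          rw [pow_succ]; ring
        rw [this]
        exact Ideal.sub_mem _ (Ideal.mul_mem_left _ _ mm)
          (Ideal.mul_mem_left _ _ (Ideal.mem_span_singleton_self _))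
  · exact hΘc v0
  · intro f
    change ∃ N : ℕ, ∃ g : Polynomial (MvPolynomial σ k),
      Polynomial.eval₂ ((Th p c v0 τ : MvPolynomial σ k →ₐ[k] _) : MvPolynomial σ k →+* _)
        (bar p (X v0 - C τ)) g = bar p (c v0 ^ N * f)
    have hδΘ : ((Th p c v0 τ : MvPolynomial σ k →ₐ[k] _) : MvPolynomial σ k →+* _) (c v0) =
      bar p (c v0) := hΘc v0
    induction f using MvPolynomial.induction_on with
    | C a =>
      refine ⟨0, Polynomial.C (C a), ?_⟩
      rw [Polynomial.eval₂_C, pow_zero, one_mul]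
      exact Th_C p c v0 τ a
    | add f₁ f₂ h₁ h₂ =>
      obtain ⟨N₁, g₁, e₁⟩ := h₁
      obtain ⟨N₂, g₂, e₂⟩ := h₂
      refine ⟨N₁ + N₂, Polynomial.C (c v0 ^ N₂) * g₁ + Polynomial.C (c v0 ^ N₁) * g₂, ?_⟩
      rw [Polynomial.eval₂_add, Polynomial.eval₂_mul, Polynomial.eval₂_mul, Polynomial.eval₂_C,
        Polynomial.eval₂_C, e₁, e₂, map_pow, map_pow, hδΘ, ← map_pow, ← map_pow, ← map_mul,
        ← map_mul, ← map_add]
      congr 1
      rw [pow_add]; ring
    | mul_X f v h =>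
      obtain ⟨N, g, e⟩ := h
      refine ⟨N + 1, g * (Polynomial.C (c v0 * X v) + Polynomial.C (c v) * Polynomial.X), ?_⟩
      rw [Polynomial.eval₂_mul, e, Polynomial.eval₂_add, Polynomial.eval₂_mul,
        Polynomial.eval₂_C, Polynomial.eval₂_C, Polynomial.eval₂_X]
      have h1 : ((Th p c v0 τ : MvPolynomial σ k →ₐ[k] _) : MvPolynomial σ k →+* _) (X v) =
        bar p (X v) - bar p (c v) / bar p (c v0) * bar p (X v0 - C τ) := Th_X _ _ _ _ _
      have h2 : ((Th p c v0 τ : MvPolynomial σ k →ₐ[k] _) : MvPolynomial σ k →+* _) (c v) =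
        bar p (c v) := hΘc v
      have e1 : bar p (c v0) * (bar p (X v) - bar p (c v) / bar p (c v0) * bar p (X v0 - C τ)) +
          bar p (c v) * bar p (X v0 - C τ) = bar p (c v0 * X v) := by
        rw [map_mul]
        generalize bar p (X v0 - C τ) = y
        generalize bar p (X v) = xv
        generalize bar p (c v) = cv
        field_simp
        ring
      have h3 : ((Th p c v0 τ : MvPolynomial σ k →ₐ[k] _) : MvPolynomial σ k →+* _)
          (c v0 * X v) = bar p (c v0) *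
          (bar p (X v) - bar p (c v) / bar p (c v0) * bar p (X v0 - C τ)) := by
        rw [map_mul, hδΘ, h1]
      rw [h3, h2, e1, ← map_mul]
      congr 1
      rw [pow_succ]; ring
  · -- δ is a nonzerodivisor modulo p + (x - τ)
    intro h hh
    change h ∈ p ⊔ Ideal.span {X v0 - C τ}
    replace hh : c v0 * h ∈ p ⊔ Ideal.span {X v0 - C τ} := hh
    rw [Submodule.mem_sup] at hh
    obtain ⟨u, hu, w, hw, huw⟩ := hh
    obtain ⟨b, rfl⟩ := Ideal.mem_span_singleton'.1 hw
    have h1 : (X v0 - C τ) * b ∈ p ⊔ Ideal.span {c v0} := by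
      have : (X v0 - C τ) * b = c v0 * h - u := by
        rw [← huw]
        ring
      rw [this]
      refine Ideal.sub_mem _ ?_ (Ideal.mem_sup_left hu)
      exact Ideal.mem_sup_right (Ideal.mul_mem_right _ _ (Ideal.mem_span_singleton_self _))
    have h2 := hg1 b h1
    rw [Submodule.mem_sup] at h2
    obtain ⟨u', hu', w', hw', huw'⟩ := h2
    obtain ⟨b', rfl⟩ := Ideal.mem_span_singleton'.1 hw'
    have h3 : c v0 * (h - b' * (X v0 - C τ)) ∈ p := by
      have : c v0 * (h - b' * (X v0 - C τ)) = u + u' * (X v0 - C τ) := by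
        rw [mul_sub, ← huw, ← huw']
        ring
      rw [this]
      exact Ideal.add_mem _ hu (Ideal.mul_mem_right _ _ hu')
    have h4 := (hp.mem_or_mem h3).resolve_left hc0
    have : h = (h - b' * (X v0 - C τ)) + b' * (X v0 - C τ) := by ring
    rw [this]
    exact Ideal.add_mem _ (Ideal.mem_sup_left h4)
      (Ideal.mem_sup_right (Ideal.mul_mem_left _ _ (Ideal.mem_span_singleton_self _)))

end Pool.Agent.Helper97.QW
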