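import Mathlib
import Pool.Agent.Helper97.QW.StepAux

namespace Pool.Agent.Helper97.QW

open MvPolynomial

/-- The ideal of the preimage `Q⁻¹(Z)`, where `J` is the ideal of `Z`: it is generated by the
polynomials `P(Q_1, …, Q_s)` with `P ∈ J`. -/
noncomputable def pre {k R : Type*} [Field k] [CommRing R] [Algebra k R] {s : ℕ} (Q : Fin s → R)
    (J : Ideal (MvPolynomial (Fin s) k)) : Ideal R :=
  J.map (aeval Q : MvPolynomial (Fin s) k →ₐ[k] R)

lemma mem_pre {k R : Type*} [Field k] [CommRing R] [Algebra k R] {s : ℕ} (Q : Fin s → R)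
    {J : Ideal (MvPolynomial (Fin s) k)} {P : MvPolynomial (Fin s) k} (hP : P ∈ J) :
    aeval Q P ∈ pre Q J :=
  Ideal.mem_map_of_mem _ hP

lemma pre_le {k R : Type*} [Field k] [CommRing R] [Algebra k R] {s : ℕ} (Q : Fin s → R)
    {J : Ideal (MvPolynomial (Fin s) k)} {I : Ideal R} (h : ∀ P ∈ J, aeval Q P ∈ I) :
    pre Q J ≤ I := by
  rw [pre, Ideal.map_le_iff_le_comap]
  intro P hP
  exact h P hP

lemma aeval_comp' {k R R' : Type*} [Field k] [CommRing R] [Algebra k R] [CommRing R']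
    [Algebra k R'] {s : ℕ} (Q : Fin s → R) (f : R →ₐ[k] R') (P : MvPolynomial (Fin s) k) :
    f (aeval Q P) = aeval (fun j => f (Q j)) P := by
  have : f.comp (aeval Q) = (aeval (fun j => f (Q j)) : MvPolynomial (Fin s) k →ₐ[k] R') := by
    ext i
    simp
  rw [← this]
  rfl

lemma map_pre_le {k R R' : Type*} [Field k] [CommRing R] [Algebra k R] [CommRing R']
    [Algebra k R'] {s : ℕ} (Q : Fin s → R) (J : Ideal (MvPolynomial (Fin s) k))
    (f : R →ₐ[k] R') : ∀ x ∈ pre Q J, f x ∈ pre (fun j => f (Q j)) J := by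
  intro x hx
  have h : pre Q J ≤ (pre (fun j => f (Q j)) J).comap (f : R →+* R') := by
    apply pre_le
    intro P hP
    rw [Ideal.mem_comap]
    change f (aeval Q P) ∈ _
    rw [aeval_comp']
    exact mem_pre _ hP
  exact h hx

theorem step {k : Type*} [Field k] {s m r : ℕ} (Q : Fin s → MvPolynomial (Fin m ⊕ Fin r) k)
    (a : Fin s → MvPolynomial (Fin r) k) (l : Fin s → Fin m → MvPolynomial (Fin r) k)
    (hQ : ∀ j, Q j = rename Sum.inr (a j) + ∑ i, X (Sum.inl i) * rename Sum.inr (l j i))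
    (J : Ideal (MvPolynomial (Fin s) k)) [hp : (pre Q J).IsPrime]
    (c : Fin m → MvPolynomial (Fin r) k) (i0 : Fin m)
    (hc0 : rename Sum.inr (c i0) ∉ pre Q J)
    (hc : ∀ j, rename Sum.inr (∑ i, l j i * c i) ∈ pre Q J) :
    {τ : k | ¬ ∃ _ : (pre Q J ⊔ Ideal.span {X (Sum.inl i0) - C τ}).IsPrime,
      Nonempty (FractionRing (MvPolynomial (Fin m ⊕ Fin r) k ⧸ pre Q J) ≃ₐ[k]
        FractionRing (Polynomial (MvPolynomial (Fin m ⊕ Fin r) k ⧸
          (pre Q J ⊔ Ideal.span {X (Sum.inl i0) - C τ}))))}.Finite := by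
  classical
  have hbad1 := finite_bad (k := k) (pre Q J ⊔ Ideal.span {rename Sum.inr (c i0)})
    (X (Sum.inl i0) : MvPolynomial (Fin m ⊕ Fin r) k)
  have hbad2 : {τ : k | X (Sum.inl i0) - C τ ∈ pre Q J}.Finite := by
    apply Set.Subsingleton.finite
    intro τ hτ τ' hτ'
    by_contra hne
    have h1 := (pre Q J).sub_mem (Set.mem_setOf.1 hτ') (Set.mem_setOf.1 hτ)
    have h2 : (X (Sum.inl i0) : MvPolynomial (Fin m ⊕ Fin r) k) - C τ' -
        (X (Sum.inl i0) - C τ) = C (τ - τ') := by rw [C_sub]; ring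
    rw [h2] at h1
    have h3 : IsUnit (C (τ - τ') : MvPolynomial (Fin m ⊕ Fin r) k) :=
      (sub_ne_zero.2 hne).isUnit.map C
    exact hp.ne_top (Ideal.eq_top_of_isUnit_mem _ h1 h3)
  refine (hbad1.union hbad2).subset ?_
  intro τ hτ
  by_contra hgood
  rw [Set.mem_union, not_or] at hgood
  obtain ⟨hg1, hg2⟩ := hgood
  simp only [Set.mem_setOf_eq, not_not] at hg1 hg2
  apply hτ
  let c' : Fin m ⊕ Fin r → MvPolynomial (Fin m ⊕ Fin r) k :=
    Sum.elim (fun i => rename Sum.inr (c i)) (fun _ => 0)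
  let Θ := Th (pre Q J) c' (Sum.inl i0) τ
  have hΘr : ∀ g : MvPolynomial (Fin r) k,
      Θ (rename Sum.inr g) = bar (pre Q J) (rename Sum.inr g) := by
    intro g
    induction g using MvPolynomial.induction_on with
    | C a => rw [rename_C]; exact Th_C _ _ _ _ _
    | add f g hf hg => rw [map_add, map_add, map_add, hf, hg]
    | mul_X f v hf =>
      rw [map_mul, map_mul, map_mul, hf, rename_X]
      congr 1
      refine (Th_X _ _ _ _ _).trans ?_
      change bar _ (X (Sum.inr v)) - bar _ 0 / _ * _ = _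
      rw [map_zero, zero_div, zero_mul, sub_zero]
  have hΘc : ∀ v, Θ (c' v) = bar (pre Q J) (c' v) := by
    rintro (i | v)
    · exact hΘr _
    · change Θ 0 = bar _ 0
      rw [map_zero, map_zero]
  have hΘQ : ∀ j, Θ (Q j) = bar (pre Q J) (Q j) := by
    intro j
    have h0 : bar (pre Q J) (rename Sum.inr (∑ i, l j i * c i)) = 0 :=
      (bar_eq_zero_iff _ _).2 (hc j)
    have h0' : ∑ i, bar (pre Q J) (rename Sum.inr (l j i * c i)) = 0 := by
      rw [← map_sum, ← map_sum]
      exact h0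
    rw [hQ j, map_add, map_add, hΘr, map_sum, map_sum]
    congr 1
    have h1 : ∀ i, Θ (X (Sum.inl i) * rename Sum.inr (l j i)) =
        bar (pre Q J) (X (Sum.inl i) * rename Sum.inr (l j i)) -
          bar (pre Q J) (rename Sum.inr (l j i * c i)) *
            (bar (pre Q J) (X (Sum.inl i0) - C τ) /
              bar (pre Q J) (rename Sum.inr (c i0))) := by
      intro i
      have h2 : Θ (X (Sum.inl i)) = bar (pre Q J) (X (Sum.inl i)) -
        bar (pre Q J) (rename Sum.inr (c i)) / bar (pre Q J) (rename Sum.inr (c i0)) *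
          bar (pre Q J) (X (Sum.inl i0) - C τ) := Th_X _ _ _ _ _
      rw [map_mul, h2, hΘr, map_mul, map_mul, map_mul]
      ring
    rw [Finset.sum_congr rfl (fun i _ => h1 i), Finset.sum_sub_distrib, ← Finset.sum_mul,
      h0', zero_mul, sub_zero]
  refine step_aux (pre Q J) c' (Sum.inl i0) hc0 τ hΘc ?_ hg2 hg1
  intro f hf
  have hle : pre Q J ≤ RingHom.ker Θ.toRingHom := by
    apply pre_le
    intro P hP
    change Θ (aeval Q P) = 0
    have h1 : Θ (aeval Q P) = bar (pre Q J) (aeval Q P) := by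
      rw [aeval_comp' Q Θ P]
      have h2 : bar (pre Q J) (aeval Q P) = ((Algebra.ofId (MvPolynomial (Fin m ⊕ Fin r) k ⧸
          pre Q J) (FractionRing (MvPolynomial (Fin m ⊕ Fin r) k ⧸ pre Q J))).restrictScalars
          k).comp (Ideal.Quotient.mkₐ k (pre Q J)) (aeval Q P) := rfl
      rw [h2, aeval_comp']
      congr 2
      ext j
      rw [hΘQ]
      rfl
    rw [h1, bar_eq_zero_iff]
    exact mem_pre Q hP
  exact hle hf

end Pool.Agent.Helper97.QW
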