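import Mathlib
import Pool.Agent.Helper97.QW.Step

namespace Pool.Agent.Helper97.QW

open MvPolynomial

theorem exists_kernel {k : Type*} [Field k] {s r : ℕ}
    (l : Fin s → Fin s → MvPolynomial (Fin r) k) (p : Ideal (MvPolynomial (Fin s ⊕ Fin r) k))
    [hp : p.IsPrime] (hdet : rename Sum.inr (Matrix.det (Matrix.of l)) ∈ p) :
    ∃ c : Fin s → MvPolynomial (Fin r) k, (∃ i0, rename Sum.inr (c i0) ∉ p) ∧
      ∀ j, rename Sum.inr (∑ i, l j i * c i) ∈ p := by
  let q : Ideal (MvPolynomial (Fin r) k) :=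
    p.comap ((rename Sum.inr : MvPolynomial (Fin r) k →ₐ[k] MvPolynomial (Fin s ⊕ Fin r) k) :
      MvPolynomial (Fin r) k →+* _)
  have hq : q.IsPrime := Ideal.IsPrime.comap _
  have hdet' : ((Matrix.of l).map (Ideal.Quotient.mk q)).det = 0 := by
    have h1 : ((Matrix.of l).map (Ideal.Quotient.mk q)).det =
        Ideal.Quotient.mk q (Matrix.det (Matrix.of l)) := by
      rw [RingHom.map_det]
      rfl
    rw [h1, Ideal.Quotient.eq_zero_iff_mem]
    exact hdet
  obtain ⟨v, hv0, hv⟩ := Matrix.exists_mulVec_eq_zero_iff.2 hdet'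
  choose c hc using fun i => Ideal.Quotient.mk_surjective (v i)
  refine ⟨c, ?_, ?_⟩
  · by_contra hall
    push Not at hall
    apply hv0
    ext i
    rw [← hc i, Pi.zero_apply, Ideal.Quotient.eq_zero_iff_mem]
    exact hall i
  · intro j
    have h1 := congrFun hv j
    change ∑ i, Ideal.Quotient.mk q (l j i) * v i = 0 at h1
    have h2 : Ideal.Quotient.mk q (∑ i, l j i * c i) = 0 := by
      rw [map_sum, ← h1]
      exact Finset.sum_congr rfl (fun i _ => by rw [map_mul, hc])
    have h3 : (∑ i, l j i * c i) ∈ q := Ideal.Quotient.eq_zero_iff_mem.1 h2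
    exact h3

/-- a nonzero polynomial over a field is a nonzerodivisor over every algebra -/
theorem mul_map_eq_zero {k B σ : Type*} [Field k] [CommRing B] [Algebra k B]
    (δ : MvPolynomial σ k) (hδ : δ ≠ 0) (G : MvPolynomial σ B)
    (h : map (algebraMap k B) δ * G = 0) : G = 0 := by
  classical
  ext m
  rw [coeff_zero]
  rw [← Module.forall_dual_apply_eq_zero_iff k]
  intro φ
  let G' : MvPolynomial σ k := ∑ n ∈ G.support, monomial n (φ (coeff n G))
  have hG' : ∀ n, coeff n G' = φ (coeff n G) := by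
    intro n
    rw [coeff_sum]
    simp only [coeff_monomial]
    rw [Finset.sum_ite_eq']
    split_ifs with hn
    · rfl
    · rw [notMem_support_iff.1 hn, map_zero]
  have h0 : δ * G' = 0 := by
    ext n
    rw [coeff_mul, coeff_zero]
    have h1 := congrArg (fun f => φ (coeff n f)) h
    simp only [coeff_mul, coeff_zero, map_zero, map_sum] at h1
    rw [← h1]
    apply Finset.sum_congr rfl
    intro x _
    rw [hG', coeff_map, ← Algebra.smul_def, map_smul, smul_eq_mul]
  have h2 : G' = 0 := (mul_eq_zero.1 h0).resolve_left hδ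
  rw [← hG', h2, coeff_zero]

end Pool.Agent.Helper97.QW
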