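import Mathlib
import Pool.Agent.Helper97.QW.Ker

namespace Pool.Agent.Helper97.QW

open MvPolynomial

/-- Case (a): the matrix of the linear parts is invertible at the generic point. -/
theorem caseA {k : Type*} [Field k] {s r : ℕ} (Q : Fin s → MvPolynomial (Fin s ⊕ Fin r) k)
    (a : Fin s → MvPolynomial (Fin r) k) (l : Fin s → Fin s → MvPolynomial (Fin r) k)
    (hQ : ∀ j, Q j = rename Sum.inr (a j) + ∑ i, X (Sum.inl i) * rename Sum.inr (l j i))
    (J : Ideal (MvPolynomial (Fin s) k)) [hp : (pre Q J).IsPrime]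
    (hdet : rename Sum.inr (Matrix.det (Matrix.of l)) ∉ pre Q J) :
    J.IsPrime ∧ Nonempty (FractionRing (MvPolynomial (Fin s ⊕ Fin r) k ⧸ pre Q J) ≃ₐ[k]
      FractionRing (MvPolynomial (Fin r) (MvPolynomial (Fin s) k ⧸ J))) := by
  classical
  set δ : MvPolynomial (Fin r) k := Matrix.det (Matrix.of l) with hδ
  have hδ0 : δ ≠ 0 := by
    intro h
    rw [h, map_zero] at hdet
    exact hdet (Ideal.zero_mem _)
  let B := MvPolynomial (Fin s) k ⧸ J
  let E := MvPolynomial (Fin r) B
  let A := MvPolynomial (Fin s ⊕ Fin r) k ⧸ pre Q J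
  let mkA : MvPolynomial (Fin s ⊕ Fin r) k →ₐ[k] A := Ideal.Quotient.mkₐ k (pre Q J)
  -- the map `B → A`
  let ξ : B →ₐ[k] A := Ideal.Quotient.liftₐ J (mkA.comp (aeval Q)) (by
    intro P hP
    change mkA (aeval Q P) = 0
    exact Ideal.Quotient.eq_zero_iff_mem.2 (mem_pre Q hP))
  have hξ : ∀ P, ξ (Ideal.Quotient.mk J P) = mkA (aeval Q P) := fun P => rfl
  let Ξ : E →ₐ[k] A := aevalTower ξ (fun b => mkA (X (Sum.inr b)))
  have hΞX : ∀ b, Ξ (X b) = mkA (X (Sum.inr b)) := fun b => aevalTower_X _ _ _
  have hΞC : ∀ b, Ξ (C b) = ξ b := fun b => aevalTower_C _ _ _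
  -- inclusion of `k[x']` in `E`
  let ι : MvPolynomial (Fin r) k →ₐ[k] E := aeval (fun b => (X b : E))
  have hιmap : ∀ g, ι g = map (algebraMap k B) g := by
    intro g
    induction g using MvPolynomial.induction_on with
    | C c => rw [map_C]; exact AlgHom.commutes _ _
    | add f g hf hg => rw [map_add, map_add, hf, hg]
    | mul_X f v hf => rw [map_mul, map_mul, hf, map_X]; congr 1; exact aeval_X _ _
  have hΞι : ∀ g, Ξ (ι g) = mkA (rename Sum.inr g) := by
    intro g
    induction g using MvPolynomial.induction_on with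
    | C c =>
      rw [rename_C]
      exact (congrArg Ξ (AlgHom.commutes ι c)).trans
        ((AlgHom.commutes Ξ c).trans (AlgHom.commutes mkA c).symm)
    | add f g hf hg => rw [map_add, map_add, map_add, map_add, hf, hg]
    | mul_X f v hf =>
      rw [map_mul, map_mul, map_mul, map_mul, hf, rename_X]
      congr 1
      have : ι (X v) = X v := aeval_X _ _
      rw [this, hΞX]
  -- the localisation
  let L := Localization.Away (ι δ)
  let loc : E →ₐ[k] L := (Algebra.ofId E L).restrictScalars k
  have hlocδ : IsUnit (loc (ι δ)) := IsLocalization.Away.algebraMap_isUnit (ι δ)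
  obtain ⟨u, hu⟩ := hlocδ
  let z : Fin s → E := fun j => C (Ideal.Quotient.mk J (X j))
  let T : Fin s → L := fun i => (↑u⁻¹ : L) *
    ∑ j, loc (ι ((Matrix.of l).adjugate i j)) * (loc (z j) - loc (ι (a j)))
  let Υ : MvPolynomial (Fin s ⊕ Fin r) k →ₐ[k] L := aeval (Sum.elim T (fun b => loc (X b)))
  have hΥr : ∀ g, Υ (rename Sum.inr g) = loc (ι g) := by
    intro g
    induction g using MvPolynomial.induction_on with
    | C c =>
      rw [rename_C]
      exact (AlgHom.commutes Υ c).trans
        ((AlgHom.commutes loc c).symm.trans (congrArg loc (AlgHom.commutes ι c).symm))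
    | add f g hf hg => rw [map_add, map_add, map_add, map_add, hf, hg]
    | mul_X f v hf =>
      rw [map_mul, map_mul, map_mul, map_mul, hf, rename_X]
      congr 1
      have h1 : ι (X v) = X v := aeval_X _ _
      rw [h1]
      exact aeval_X _ _
  have hΥl : ∀ i, Υ (X (Sum.inl i)) = T i := fun i => aeval_X _ _
  have hΥQ : ∀ j, Υ (Q j) = loc (z j) := by
    intro j
    rw [hQ j, map_add, hΥr, map_sum]
    have h1 : ∀ i, Υ (X (Sum.inl i) * rename Sum.inr (l j i)) =
        ∑ j', (↑u⁻¹ : L) * (loc (ι (l j i * (Matrix.of l).adjugate i j')) *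
          (loc (z j') - loc (ι (a j')))) := by
      intro i
      rw [map_mul, hΥl, hΥr, ← Finset.mul_sum]
      change ↑u⁻¹ * (∑ j', loc (ι ((Matrix.of l).adjugate i j')) * _) * _ = _
      rw [mul_assoc, Finset.sum_mul]
      congr 1
      apply Finset.sum_congr rfl
      intro j' _
      rw [map_mul, map_mul]
      ring
    rw [Finset.sum_congr rfl (fun i _ => h1 i), Finset.sum_comm]
    have h2 : ∀ j', ∑ i, (↑u⁻¹ : L) * (loc (ι (l j i * (Matrix.of l).adjugate i j')) *
          (loc (z j') - loc (ι (a j')))) =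
        if j = j' then (loc (z j') - loc (ι (a j'))) else 0 := by
      intro j'
      rw [← Finset.mul_sum, ← Finset.sum_mul, ← map_sum, ← map_sum]
      have h3 : ∑ i, l j i * (Matrix.of l).adjugate i j' = if j = j' then δ else 0 := by
        have h4 := congrFun (congrFun (Matrix.mul_adjugate (Matrix.of l)) j) j'
        rw [Matrix.mul_apply, Matrix.smul_apply, Matrix.one_apply, smul_eq_mul] at h4
        simp only [Matrix.of_apply] at h4
        rw [h4]
        split_ifs <;> simp [hδ]
      rw [h3]
      split_ifs with hjj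
      · rw [← hu, ← mul_assoc, Units.inv_mul, one_mul]
      · rw [map_zero, map_zero, zero_mul, mul_zero]
    rw [Finset.sum_congr rfl (fun j' _ => h2 j'), Finset.sum_ite_eq, if_pos (Finset.mem_univ j)]
    ring
  have hΥP : ∀ P, Υ (aeval Q P) = loc (C (Ideal.Quotient.mk J P)) := by
    intro P
    induction P using MvPolynomial.induction_on with
    | C c =>
      rw [aeval_C]
      exact (AlgHom.commutes Υ c).trans (AlgHom.commutes loc c).symm
    | add f g hf hg => simp only [map_add, hf, hg]
    | mul_X f v hf => simp only [map_mul, hf, aeval_X, hΥQ]; rfl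
  let Υ' : A →ₐ[k] L := Ideal.Quotient.liftₐ (pre Q J) Υ (by
    intro f hf
    have hle : pre Q J ≤ RingHom.ker Υ.toRingHom := by
      apply pre_le
      intro P hP
      change Υ (aeval Q P) = 0
      rw [hΥP, Ideal.Quotient.eq_zero_iff_mem.2 hP, map_zero, map_zero]
    exact hle hf)
  have hΥ' : ∀ f, Υ' (mkA f) = Υ f := fun f => rfl
  have hcomp : ∀ G : E, Υ' (Ξ G) = loc G := by
    intro G
    induction G using MvPolynomial.induction_on with
    | C b =>
      obtain ⟨P, rfl⟩ := Ideal.Quotient.mk_surjective b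
      rw [hΞC, hξ, hΥ', hΥP]
    | add f g hf hg => simp only [map_add, hf, hg]
    | mul_X f v hf =>
      rw [map_mul, map_mul, map_mul, hf, hΞX, hΥ']
      congr 1
      exact aeval_X _ _
  have hΞinj : Function.Injective Ξ := by
    rw [injective_iff_map_eq_zero]
    intro G hG
    have h1 : loc G = 0 := by rw [← hcomp, hG, map_zero]
    have h2 : algebraMap E L G = algebraMap E L 0 := by rw [map_zero]; exact h1
    rw [IsLocalization.eq_iff_exists (Submonoid.powers (ι δ)) L] at h2
    obtain ⟨⟨_, N, rfl⟩, h3⟩ := h2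
    rw [mul_zero] at h3
    change (ι δ) ^ N * G = 0 at h3
    have : ∀ N : ℕ, (ι δ) ^ N * G = 0 → G = 0 := by
      intro N
      induction N with
      | zero => intro h; simpa using h
      | succ N ih =>
        intro h
        apply ih
        rw [pow_succ', mul_assoc, hιmap] at h
        rw [hιmap]
        exact mul_map_eq_zero δ hδ0 _ h
    exact this N h3
  have hE : IsDomain E := hΞinj.isDomain (Ξ : E →+* A)
  have hB : IsDomain B := (MvPolynomial.C_injective (Fin r) B).isDomain (C : B →+* E)
  refine ⟨(Ideal.Quotient.isDomain_iff_prime J).1 hB, ?_⟩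
  let ob : A →ₐ[k] FractionRing A := (Algebra.ofId A (FractionRing A)).restrictScalars k
  have hob : Function.Injective ob := IsFractionRing.injective A (FractionRing A)
  let g : E →ₐ[k] FractionRing A := ob.comp Ξ
  have hg : Function.Injective g := hob.comp hΞinj
  let Λ : FractionRing E →ₐ[k] FractionRing A :=
    IsFractionRing.liftAlgHom (R := k) (A := E) (K := FractionRing E) hg
  have hΛ : ∀ G : E, Λ (algebraMap _ _ G) = ob (Ξ G) := fun G =>
    IsFractionRing.lift_algebraMap hg G
  have hδA : mkA (rename Sum.inr δ) ≠ 0 := by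
    intro h
    exact hdet (Ideal.Quotient.eq_zero_iff_mem.1 h)
  have key : ∀ f : MvPolynomial (Fin s ⊕ Fin r) k, ∃ N : ℕ, ∃ G : E,
      Ξ G = mkA (rename Sum.inr δ ^ N * f) := by
    intro f
    induction f using MvPolynomial.induction_on with
    | C c =>
      refine ⟨0, algebraMap k E c, ?_⟩
      rw [pow_zero, one_mul]
      exact (AlgHom.commutes Ξ c).trans (AlgHom.commutes mkA c).symm
    | add f₁ f₂ h₁ h₂ =>
      obtain ⟨N₁, g₁, e₁⟩ := h₁
      obtain ⟨N₂, g₂, e₂⟩ := h₂
      refine ⟨N₁ + N₂, ι δ ^ N₂ * g₁ + ι δ ^ N₁ * g₂, ?_⟩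
      have h1 : ∀ M : ℕ, Ξ (ι δ ^ M) = mkA (rename Sum.inr δ ^ M) := by
        intro M
        rw [map_pow, hΞι, map_pow]
      rw [map_add, map_mul, map_mul, e₁, e₂, h1, h1, ← map_mul, ← map_mul, ← map_add]
      congr 1
      ring
    | mul_X f v h =>
      obtain ⟨N, G, e⟩ := h
      rcases v with i | b
      · refine ⟨N + 1, G * ∑ j, ι ((Matrix.of l).adjugate i j) * (z j - ι (a j)), ?_⟩
        rw [map_mul, e, map_sum]
        have h1 : ∀ j, Ξ (ι ((Matrix.of l).adjugate i j) * (z j - ι (a j))) =
            mkA (∑ i', rename Sum.inr ((Matrix.of l).adjugate i j * l j i') *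
              X (Sum.inl i')) := by
          intro j
          have h2 : Ξ (z j) = mkA (Q j) := by
            rw [hΞC, hξ, aeval_X]
          rw [map_mul, map_sub, hΞι, hΞι, h2, ← map_sub, ← map_mul, hQ j, add_sub_cancel_left,
            Finset.mul_sum]
          congr 1
          apply Finset.sum_congr rfl
          intro i' _
          rw [map_mul]
          ring
        rw [Finset.sum_congr rfl (fun j _ => h1 j), ← map_sum, Finset.sum_comm, ← map_mul]
        congr 1
        have h3 : ∀ i', ∑ j, rename Sum.inr ((Matrix.of l).adjugate i j * l j i') *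
            (X (Sum.inl i') : MvPolynomial (Fin s ⊕ Fin r) k) =
            if i = i' then rename Sum.inr δ * X (Sum.inl i') else 0 := by
          intro i'
          rw [← Finset.sum_mul, ← map_sum]
          have h4 := congrFun (congrFun (Matrix.adjugate_mul (Matrix.of l)) i) i'
          rw [Matrix.mul_apply, Matrix.smul_apply, Matrix.one_apply, smul_eq_mul] at h4
          simp only [Matrix.of_apply] at h4
          rw [h4]
          split_ifs <;> simp [hδ]
        rw [Finset.sum_congr rfl (fun i' _ => h3 i'), Finset.sum_ite_eq,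
          if_pos (Finset.mem_univ i)]
        ring
      · refine ⟨N, G * X b, ?_⟩
        rw [map_mul, e, hΞX, ← map_mul]
        congr 1
        ring
  have hrange : ∀ f, ∃ w, Λ w = ob (mkA f) := by
    intro f
    obtain ⟨N, G, e⟩ := key f
    refine ⟨algebraMap _ _ G / algebraMap _ _ (ι δ ^ N), ?_⟩
    rw [map_div₀, hΛ, hΛ, e, map_pow, hΞι, map_mul, map_pow]
    have h0 : ob (mkA (rename Sum.inr δ)) ≠ 0 := by
      intro h
      exact hδA (hob (by rw [h, map_zero]))
    rw [map_mul, map_pow, mul_div_assoc, mul_comm, div_mul_cancel₀ _ (pow_ne_zero _ h0)]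
  refine ⟨(AlgEquiv.ofBijective Λ ⟨Λ.toRingHom.injective, ?_⟩).symm⟩
  intro w
  obtain ⟨f, g, hg0, rfl⟩ := IsFractionRing.div_surjective (A := A) w
  obtain ⟨f, rfl⟩ := Ideal.Quotient.mk_surjective f
  obtain ⟨g, rfl⟩ := Ideal.Quotient.mk_surjective g
  obtain ⟨z1, h1⟩ := hrange f
  obtain ⟨z2, h2⟩ := hrange g
  exact ⟨z1 / z2, by rw [map_div₀, h1, h2]; rfl⟩

end Pool.Agent.Helper97.QW
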