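import Mathlib

namespace Pool.Agent.Helper97.QW

open MvPolynomial

/-- the polynomial with coefficients `α`, `β`, `γ` -/
noncomputable def quadPoly {k σ : Type*} [Field k] [Fintype σ] (α : k) (β : σ → k)
    (γ : σ → σ → k) : MvPolynomial σ k :=
  C α + ∑ u, C (β u) * X u + ∑ u, ∑ v, C (γ u v) * (X u * X v)

lemma degree_le_two {σ : Type*} (m : σ →₀ ℕ) (hm : m.degree ≤ 2) :
    m = 0 ∨ (∃ u, m = Finsupp.single u 1) ∨
      ∃ u v, m = Finsupp.single u 1 + Finsupp.single v 1 := by
  classical
  by_cases h0 : m = 0
  · exact Or.inl h0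
  · right
    obtain ⟨u, hu⟩ : ∃ u, m u ≠ 0 := by
      by_contra hall
      push Not at hall
      exact h0 (Finsupp.ext hall)
    have h1 : m = (m - Finsupp.single u 1) + Finsupp.single u 1 := by
      ext w
      by_cases hw : w = u
      · subst hw
        simp
        omega
      · simp [Ne.symm hw]
    by_cases h2 : m - Finsupp.single u 1 = 0
    · left
      refine ⟨u, ?_⟩
      rw [h1, h2, zero_add]
    · right
      obtain ⟨v, hv⟩ : ∃ v, (m - Finsupp.single u 1 : σ →₀ ℕ) v ≠ 0 := by
        by_contra hall
        push Not at hall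
        exact h2 (Finsupp.ext hall)
      have h3 : (m - Finsupp.single u 1) =
          (m - Finsupp.single u 1 - Finsupp.single v 1) + Finsupp.single v 1 := by
        ext w
        by_cases hw : w = v
        · subst hw
          simp only [Finsupp.coe_tsub, Pi.sub_apply, Finsupp.coe_add, Pi.add_apply,
            Finsupp.single_eq_same] at hv ⊢
          omega
        · simp [Finsupp.single_apply, Ne.symm hw]
      have h4 : m - Finsupp.single u 1 - Finsupp.single v 1 = 0 := by
        have h5 : m.degree = (m - Finsupp.single u 1 - Finsupp.single v 1).degree + 1 + 1 := by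
          conv_lhs => rw [h1, h3]
          rw [map_add, map_add]
          simp
        have h6 : (m - Finsupp.single u 1 - Finsupp.single v 1).degree = 0 := by omega
        rwa [Finsupp.degree_eq_zero_iff] at h6
      refine ⟨v, u, ?_⟩
      rw [h4, zero_add] at h3
      rw [h3] at h1
      exact h1

theorem exists_quadPoly {k σ : Type*} [Field k] [Fintype σ] (Q : MvPolynomial σ k)
    (hQ : Q.totalDegree ≤ 2) : ∃ α β γ, Q = quadPoly α β γ := by
  classical
  -- closed under addition
  have hadd : ∀ P P' : MvPolynomial σ k, (∃ α β γ, P = quadPoly α β γ) →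
      (∃ α β γ, P' = quadPoly α β γ) → ∃ α β γ, P + P' = quadPoly α β γ := by
    rintro _ _ ⟨α, β, γ, rfl⟩ ⟨α', β', γ', rfl⟩
    refine ⟨α + α', fun u => β u + β' u, fun u v => γ u v + γ' u v, ?_⟩
    simp only [quadPoly, C_add, add_mul, Finset.sum_add_distrib]
    ring
  have hmono : ∀ (m : σ →₀ ℕ) (c : k), m.degree ≤ 2 →
      ∃ α β γ, (monomial m c : MvPolynomial σ k) = quadPoly α β γ := by
    intro m c hm
    rcases degree_le_two m hm with rfl | ⟨u, rfl⟩ | ⟨u, v, rfl⟩
    · exact ⟨c, 0, 0, by simp [quadPoly]⟩
    · refine ⟨0, fun w => if w = u then c else 0, 0, ?_⟩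
      simp only [quadPoly, C_0, zero_add, Pi.zero_apply, zero_mul, Finset.sum_const_zero,
        add_zero]
      rw [Finset.sum_eq_single u (fun w _ hw => by rw [if_neg hw, C_0, zero_mul])
        (fun h => absurd (Finset.mem_univ u) h), if_pos rfl, C_mul_X_eq_monomial]
    · refine ⟨0, 0, fun w w' => if w = u ∧ w' = v then c else 0, ?_⟩
      simp only [quadPoly, C_0, zero_add, Pi.zero_apply, zero_mul, Finset.sum_const_zero]
      rw [Finset.sum_eq_single u (fun w _ hw => Finset.sum_eq_zero fun w' _ => by
          rw [if_neg (fun h => hw h.1), C_0, zero_mul])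
        (fun h => absurd (Finset.mem_univ u) h),
        Finset.sum_eq_single v (fun w' _ hw => by rw [if_neg (fun h => hw h.2), C_0, zero_mul])
        (fun h => absurd (Finset.mem_univ v) h), if_pos ⟨rfl, rfl⟩, X, X, monomial_mul,
        one_mul, C_mul_monomial, mul_one]
  rw [Q.as_sum]
  have : ∀ S : Finset (σ →₀ ℕ), S ⊆ Q.support →
      ∃ α β γ, ∑ m ∈ S, monomial m (coeff m Q) = quadPoly α β γ := by
    intro S
    induction S using Finset.induction_on with
    | empty =>
      intro _
      exact ⟨0, 0, 0, by simp [quadPoly]⟩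
    | insert m S hm ih =>
      intro hS
      rw [Finset.sum_insert hm]
      apply hadd
      · apply hmono
        refine le_trans ?_ hQ
        have := le_totalDegree (hS (Finset.mem_insert_self m S))
        exact this
      · exact ih (fun x hx => hS (Finset.mem_insert_of_mem hx))
  exact this _ (Finset.Subset.refl _)

end Pool.Agent.Helper97.QW
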