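import Mathlib
import Pool.Agent.Helper47.Rig.Zero

namespace Pool.Agent.Helper97.QW

open MvPolynomial

theorem exists_common_zero' {k : Type*} [Field k] [IsAlgClosed k] {σ ι : Type*} [Fintype σ]
    [Fintype ι] (h : Fintype.card ι < Fintype.card σ) (q : ι → MvPolynomial σ k)
    (h0 : ∀ i, eval 0 (q i) = 0) : ∃ z : σ → k, z ≠ 0 ∧ ∀ i, eval z (q i) = 0 := by
  let eσ := Fintype.equivFin σ
  let eι := Fintype.equivFin ι
  obtain ⟨z, hz0, hz⟩ := Helper47.Rig.exists_common_zero h
    (fun i => rename eσ (q (eι.symm i))) (fun i => by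
      rw [eval_rename]
      exact h0 _)
  refine ⟨fun u => z (eσ u), ?_, ?_⟩
  · intro hcon
    apply hz0
    ext i
    have := congrFun hcon (eσ.symm i)
    simpa using this
  · intro i
    have := hz (eι i)
    rw [eval_rename, Equiv.symm_apply_apply] at this
    exact this

/-- the bilinear form with matrix `γ` -/
def bil {k σ : Type*} [Field k] [Fintype σ] (γ : σ → σ → k) (x y : σ → k) : k :=
  ∑ u, ∑ v, γ u v * (x u * y v)

lemma bil_add_left {k σ : Type*} [Field k] [Fintype σ] (γ : σ → σ → k) (x x' y : σ → k) :
    bil γ (x + x') y = bil γ x y + bil γ x' y := by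
  simp only [bil, Pi.add_apply, add_mul, mul_add, Finset.sum_add_distrib]

/-- isotropic families -/
def Iso {k σ : Type*} [Field k] [Fintype σ] {s m : ℕ} (γ : Fin s → σ → σ → k)
    (w : Fin m → σ → k) : Prop :=
  (∀ j a, bil (γ j) (w a) (w a) = 0) ∧
    ∀ j a b, a ≠ b → bil (γ j) (w a) (w b) + bil (γ j) (w b) (w a) = 0

theorem exists_iso {k : Type*} [Field k] [IsAlgClosed k] {σ : Type*} [Fintype σ]
    {s : ℕ} (γ : Fin s → σ → σ → k) (m : ℕ)
    (hm : m = 0 ∨ s + (s + 1) * (m - 1) < Fintype.card σ) :
    ∃ w : Fin m → σ → k, LinearIndependent k w ∧ Iso γ w := by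
  classical
  induction m with
  | zero => exact ⟨Fin.elim0, linearIndependent_empty_type, fun _ a => a.elim0,
      fun _ a => a.elim0⟩
  | succ m ih =>
    have hm1 : s + (s + 1) * m < Fintype.card σ := by
      rcases hm with h | h
      · omega
      · simpa using h
    obtain ⟨w, hw, hiso⟩ := ih (by
      rcases Nat.eq_zero_or_pos m with h | h
      · exact Or.inl h
      · right
        refine lt_of_le_of_lt ?_ hm1
        have : (s + 1) * (m - 1) ≤ (s + 1) * m := Nat.mul_le_mul_left _ (Nat.sub_le _ _)
        omega)
    -- functionals dual to `w`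
    obtain ⟨g, hg⟩ := LinearMap.exists_leftInverse_of_injective
      (Fintype.linearCombination k w) (by
        rw [LinearMap.ker_eq_bot]
        exact hw.fintypeLinearCombination_injective)
    let q : (Fin s ⊕ (Fin s × Fin m)) ⊕ Fin m → MvPolynomial σ k :=
      Sum.elim (Sum.elim
        (fun j => ∑ u, ∑ v, C (γ j u v) * (X u * X v))
        (fun ja => ∑ u, ∑ v, C (γ ja.1 u v) *
          (C (w ja.2 u) * X v + X u * C (w ja.2 v))))
        (fun c => ∑ u, C (g (Pi.single u 1) c) * X u)
    have hcard : Fintype.card ((Fin s ⊕ (Fin s × Fin m)) ⊕ Fin m) < Fintype.card σ := by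
      simp only [Fintype.card_sum, Fintype.card_prod, Fintype.card_fin]
      refine lt_of_le_of_lt (le_of_eq ?_) hm1
      ring
    obtain ⟨z, hz0, hz⟩ := exists_common_zero' hcard q (by
      rintro ((j | ja) | c) <;> simp [q])
    have hz1 : ∀ j, bil (γ j) z z = 0 := by
      intro j
      have := hz (Sum.inl (Sum.inl j))
      simpa [q, bil] using this
    have hz2 : ∀ j a, bil (γ j) (w a) z + bil (γ j) z (w a) = 0 := by
      intro j a
      have := hz (Sum.inl (Sum.inr (j, a)))
      simp only [q, Sum.elim_inl, Sum.elim_inr, map_sum, map_mul, map_add, eval_C, eval_X,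
        mul_add, Finset.sum_add_distrib] at this
      exact this
    have hz3 : g z = 0 := by
      ext c
      have := hz (Sum.inr c)
      simp only [q, Sum.elim_inr, map_sum, map_mul, eval_C, eval_X] at this
      rw [Pi.zero_apply, ← this]
      conv_lhs => rw [LinearMap.pi_apply_eq_sum_univ g z]
      rw [Finset.sum_apply]
      apply Finset.sum_congr rfl
      intro u _
      have hs : (fun j => if u = j then (1 : k) else 0) = Pi.single u 1 := by
        ext v
        simp [Pi.single_apply, eq_comm]
      rw [Pi.smul_apply, smul_eq_mul, mul_comm, hs]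
    refine ⟨Fin.snoc w z, ?_, ?_, ?_⟩
    · rw [linearIndependent_finSnoc]
      refine ⟨hw, ?_⟩
      intro hmem
      obtain ⟨c, hc⟩ := (Submodule.mem_span_range_iff_exists_fun k).1 hmem
      have h1 : Fintype.linearCombination k w c = z := by
        rw [Fintype.linearCombination_apply]; exact hc
      have h2 : g (Fintype.linearCombination k w c) = c := LinearMap.congr_fun hg c
      rw [h1, hz3] at h2
      apply hz0
      rw [← h1, ← h2, map_zero]
    · intro j a
      refine Fin.lastCases ?_ (fun a => ?_) a
      · rw [Fin.snoc_last]; exact hz1 j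
      · rw [Fin.snoc_castSucc]; exact hiso.1 j a
    · intro j a b
      refine Fin.lastCases ?_ (fun a => ?_) a
      · refine Fin.lastCases ?_ (fun b => ?_) b
        · intro h; exact absurd rfl h
        · intro _
          rw [Fin.snoc_last, Fin.snoc_castSucc, add_comm]
          exact hz2 j b
      · refine Fin.lastCases ?_ (fun b => ?_) b
        · intro _
          rw [Fin.snoc_last, Fin.snoc_castSucc]
          exact hz2 j a
        · intro h
          rw [Fin.snoc_castSucc, Fin.snoc_castSucc]
          exact hiso.2 j a b (fun hab => h (by rw [hab]))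

end Pool.Agent.Helper97.QW
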