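import Mathlib
import Pool.Agent.Helper97.QW.Coords1
import Pool.Agent.Helper97.QW.Coords2

namespace Pool.Agent.Helper97.QW

open MvPolynomial

lemma lin_comb {k σ : Type*} [Field k] [Fintype σ] (f : σ → k) (g : σ → σ → k) :
    (∑ v, C (f v) * ∑ u, C (g v u) * X u : MvPolynomial σ k) =
      ∑ u, C (∑ v, f v * g v u) * X u := by
  simp only [Finset.mul_sum, map_sum, map_mul, Finset.sum_mul]
  rw [Finset.sum_comm]
  refine Finset.sum_congr rfl fun u _ => Finset.sum_congr rfl fun v _ => ?_
  ring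

lemma repr_sum {k σ : Type*} [Field k] [Fintype σ] [DecidableEq σ]
    (b : Module.Basis σ k (σ → k)) (x : σ → k) (v : σ) :
    ∑ u, b.repr (Pi.single u 1) v * x u = b.repr x v := by
  have hx : x = ∑ u, x u • (Pi.single u 1 : σ → k) := by
    ext w
    simp [Finset.sum_apply, Pi.single_apply]
  conv_rhs => rw [hx, map_sum, Finsupp.finset_sum_apply]
  refine Finset.sum_congr rfl fun u _ => ?_
  rw [map_smul, Finsupp.smul_apply, smul_eq_mul, mul_comm]

lemma sum_repr' {k σ : Type*} [Field k] [Fintype σ] [DecidableEq σ]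
    (b : Module.Basis σ k (σ → k)) (u u' : σ) :
    ∑ v, b v u * b.repr (Pi.single u' 1) v = (Pi.single u' 1 : σ → k) u := by
  conv_rhs => rw [← b.sum_repr (Pi.single u' 1), Finset.sum_apply]
  refine Finset.sum_congr rfl fun v _ => ?_
  rw [Pi.smul_apply, smul_eq_mul, mul_comm]

/-- the linear substitution attached to a basis -/
noncomputable def subst {k σ : Type*} [Field k] [Fintype σ] [DecidableEq σ]
    (b : Module.Basis σ k (σ → k)) : MvPolynomial σ k ≃ₐ[k] MvPolynomial σ k :=
  AlgEquiv.ofAlgHom (aeval fun u => ∑ v, C (b v u) * X v)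
    (aeval fun v => ∑ u, C (b.repr (Pi.single u 1) v) * X u)
    (by
      apply MvPolynomial.algHom_ext
      intro v
      simp only [AlgHom.coe_comp, Function.comp_apply, aeval_X, map_sum, map_mul,
        algHom_C, algebraMap_eq, AlgHom.coe_id, id_eq]
      rw [lin_comb (fun u => b.repr (Pi.single u 1) v) (fun u v' => b v' u)]
      rw [Finset.sum_eq_single v]
      · rw [repr_sum, b.repr_self, Finsupp.single_eq_same, C_1, one_mul]
      · intro w _ hw
        rw [repr_sum, b.repr_self, Finsupp.single_eq_of_ne (by tauto), C_0, zero_mul]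
      · intro h
        exact absurd (Finset.mem_univ v) h)
    (by
      apply MvPolynomial.algHom_ext
      intro u
      simp only [AlgHom.coe_comp, Function.comp_apply, aeval_X, map_sum, map_mul,
        algHom_C, algebraMap_eq, AlgHom.coe_id, id_eq]
      rw [lin_comb (fun v => b v u) (fun v u' => b.repr (Pi.single u' 1) v)]
      rw [Finset.sum_eq_single u]
      · rw [sum_repr', Pi.single_eq_same, C_1, one_mul]
      · intro w _ hw
        rw [sum_repr', Pi.single_eq_of_ne (by tauto), C_0, zero_mul]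
      · intro h
        exact absurd (Finset.mem_univ u) h)

lemma subst_X {k σ : Type*} [Field k] [Fintype σ] [DecidableEq σ]
    (b : Module.Basis σ k (σ → k)) (u : σ) : subst b (X u) = ∑ v, C (b v u) * X v :=
  aeval_X _ _

lemma subst_C {k σ : Type*} [Field k] [Fintype σ] [DecidableEq σ]
    (b : Module.Basis σ k (σ → k)) (c : k) : subst b (C c) = C c :=
  AlgEquiv.commutes (subst b) c

lemma subst_quadPoly {k σ : Type*} [Field k] [Fintype σ] [DecidableEq σ]
    (b : Module.Basis σ k (σ → k)) (α : k) (β : σ → k) (γ : σ → σ → k) :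
    subst b (quadPoly α β γ) =
      quadPoly α (fun v => ∑ u, β u * b v u) (fun v v' => bil γ (b v) (b v')) := by
  have h0 : subst b (quadPoly α β γ) = C α + ∑ u, C (β u) * ∑ v, C (b v u) * X v +
      ∑ u, ∑ u', C (γ u u') * ((∑ v, C (b v u) * X v) * (∑ v', C (b v' u') * X v')) := by
    simp only [quadPoly, map_add, map_sum, map_mul, subst_C, subst_X]
  rw [h0, quadPoly, lin_comb β (fun u v => b v u)]
  congr 1
  have h1 : ∀ u u' : σ, (C (γ u u') : MvPolynomial σ k) *
      ((∑ v, C (b v u) * X v) * (∑ v', C (b v' u') * X v')) =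
      ∑ v, ∑ v', C (γ u u' * (b v u * b v' u')) * (X v * X v') := by
    intro u u'
    rw [Finset.sum_mul_sum, Finset.mul_sum]
    refine Finset.sum_congr rfl fun v _ => ?_
    rw [Finset.mul_sum]
    refine Finset.sum_congr rfl fun v' _ => ?_
    simp only [C_mul]
    ring
  rw [Finset.sum_congr rfl fun u _ => Finset.sum_congr rfl fun u' _ => h1 u u']
  have h2 : ∀ v v' : σ, (C (bil γ (b v) (b v')) : MvPolynomial σ k) * (X v * X v') =
      ∑ u, ∑ u', C (γ u u' * (b v u * b v' u')) * (X v * X v') := by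
    intro v v'
    rw [bil, map_sum, Finset.sum_mul]
    refine Finset.sum_congr rfl fun u _ => ?_
    rw [map_sum, Finset.sum_mul]
  rw [Finset.sum_congr rfl fun v _ => Finset.sum_congr rfl fun v' _ => h2 v v']
  -- exchange the sums
  calc ∑ u, ∑ u', ∑ v, ∑ v', (C (γ u u' * (b v u * b v' u')) : MvPolynomial σ k) * (X v * X v')
      = ∑ u, ∑ v, ∑ u', ∑ v', C (γ u u' * (b v u * b v' u')) * (X v * X v') :=
        Finset.sum_congr rfl fun u _ => Finset.sum_comm
    _ = ∑ v, ∑ u, ∑ u', ∑ v', C (γ u u' * (b v u * b v' u')) * (X v * X v') :=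
        Finset.sum_comm
    _ = ∑ v, ∑ u, ∑ v', ∑ u', C (γ u u' * (b v u * b v' u')) * (X v * X v') :=
        Finset.sum_congr rfl fun v _ => Finset.sum_congr rfl fun u _ => Finset.sum_comm
    _ = ∑ v, ∑ v', ∑ u, ∑ u', C (γ u u' * (b v u * b v' u')) * (X v * X v') :=
        Finset.sum_congr rfl fun v _ => Finset.sum_comm

lemma antisymm_sum {k : Type*} [Field k] {σ : Type*} {s : ℕ} (γ : Fin s → Fin s → k)
    (x : Fin s → MvPolynomial σ k)
    (h1 : ∀ i, γ i i = 0) (h2 : ∀ i i', i ≠ i' → γ i i' + γ i' i = 0) :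
    (∑ i, ∑ i', C (γ i i') * (x i * x i') : MvPolynomial σ k) = 0 := by
  rw [← Finset.sum_product']
  refine Finset.sum_involution (fun p _ => (p.2, p.1)) ?_ ?_ ?_ ?_
  · rintro ⟨i, i'⟩ _
    by_cases h : i = i'
    · subst h
      simp [h1]
    · simp only
      rw [mul_comm (x i') (x i), ← add_mul, ← C_add, h2 i i' h, C_0, zero_mul]
  · rintro ⟨i, i'⟩ _ hne heq
    simp only [Prod.mk.injEq] at heq
    apply hne
    simp only
    rw [heq.1, h1, C_0, zero_mul]
  · intro _ _
    exact Finset.mem_product.2 ⟨Finset.mem_univ _, Finset.mem_univ _⟩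
  · intro _ _
    rfl

lemma quadPoly_split {k : Type*} [Field k] {s r : ℕ} (α : k) (β : Fin s ⊕ Fin r → k)
    (γ : Fin s ⊕ Fin r → Fin s ⊕ Fin r → k)
    (h1 : ∀ i, γ (Sum.inl i) (Sum.inl i) = 0)
    (h2 : ∀ i i', i ≠ i' → γ (Sum.inl i) (Sum.inl i') + γ (Sum.inl i') (Sum.inl i) = 0) :
    quadPoly α β γ =
      rename Sum.inr (quadPoly α (fun b => β (Sum.inr b))
        (fun b b' => γ (Sum.inr b) (Sum.inr b'))) +
      ∑ i, X (Sum.inl i) * rename Sum.inr (C (β (Sum.inl i)) +
        ∑ b, C (γ (Sum.inl i) (Sum.inr b) + γ (Sum.inr b) (Sum.inl i)) * X b) := by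
  have h3 := antisymm_sum (fun i i' => γ (Sum.inl i) (Sum.inl i'))
    (fun i => (X (Sum.inl i) : MvPolynomial (Fin s ⊕ Fin r) k)) h1 h2
  simp only [quadPoly, Fintype.sum_sum_type, map_add, map_sum, map_mul, rename_C, rename_X,
    Finset.sum_add_distrib, mul_add, Finset.mul_sum, C_add, add_mul] at h3 ⊢
  rw [h3]
  have e1 : ∑ x : Fin r, ∑ x_1 : Fin s, (C (γ (Sum.inr x) (Sum.inl x_1)) :
      MvPolynomial (Fin s ⊕ Fin r) k) * (X (Sum.inr x) * X (Sum.inl x_1)) =
      ∑ x : Fin s, ∑ x_1 : Fin r, X (Sum.inl x) *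
        (C (γ (Sum.inr x_1) (Sum.inl x)) * X (Sum.inr x_1)) := by
    rw [Finset.sum_comm]
    refine Finset.sum_congr rfl fun i _ => Finset.sum_congr rfl fun b _ => ?_
    ring
  have e2 : ∑ x : Fin s, ∑ x_1 : Fin r, (C (γ (Sum.inl x) (Sum.inr x_1)) :
      MvPolynomial (Fin s ⊕ Fin r) k) * (X (Sum.inl x) * X (Sum.inr x_1)) =
      ∑ x : Fin s, ∑ x_1 : Fin r, X (Sum.inl x) *
        (C (γ (Sum.inl x) (Sum.inr x_1)) * X (Sum.inr x_1)) := by
    refine Finset.sum_congr rfl fun i _ => Finset.sum_congr rfl fun b _ => ?_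
    ring
  have e3 : ∑ x : Fin s, (C (β (Sum.inl x)) : MvPolynomial (Fin s ⊕ Fin r) k) *
      X (Sum.inl x) = ∑ x : Fin s, X (Sum.inl x) * C (β (Sum.inl x)) := by
    refine Finset.sum_congr rfl fun i _ => ?_
    ring
  rw [e1, e2, e3]
  ring

theorem exists_coords {k : Type*} [Field k] [IsAlgClosed k] {s r : ℕ} (hr : s * s ≤ r)
    (Q : Fin s → MvPolynomial (Fin s ⊕ Fin r) k) (hQ : ∀ j, (Q j).totalDegree ≤ 2) :
    ∃ (Φ : MvPolynomial (Fin s ⊕ Fin r) k ≃ₐ[k] MvPolynomial (Fin s ⊕ Fin r) k)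
      (a : Fin s → MvPolynomial (Fin r) k) (l : Fin s → Fin s → MvPolynomial (Fin r) k),
      (∀ v, (Φ (X v)).totalDegree ≤ 1) ∧
      ∀ j, Φ (Q j) = rename Sum.inr (a j) + ∑ i, X (Sum.inl i) * rename Sum.inr (l j i) := by
  classical
  choose α β γ hαβγ using fun j => exists_quadPoly (Q j) (hQ j)
  obtain ⟨w, hw, hiso⟩ := exists_iso (k := k) (σ := Fin s ⊕ Fin r) γ s (by
    rcases Nat.eq_zero_or_pos s with h | h
    · exact Or.inl h
    · right
      simp only [Fintype.card_sum, Fintype.card_fin]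
      obtain ⟨t, rfl⟩ : ∃ t, s = t + 1 := ⟨s - 1, by omega⟩
      simp only [Nat.add_sub_cancel]
      nlinarith)
  obtain ⟨b, hb⟩ : ∃ b : Module.Basis (Fin s ⊕ Fin r) k (Fin s ⊕ Fin r → k),
      ∀ i, b (Sum.inl i) = w i := by
    have hli : LinearIndepOn k id (Set.range w) := hw.linearIndepOn_id
    let b0 := Module.Basis.extend hli
    have hfin : Finite (hli.extend (Set.subset_univ _)) := Module.Finite.finite_basis b0
    have hft : Fintype (hli.extend (Set.subset_univ _)) := Fintype.ofFinite _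
    have hcard : Fintype.card (hli.extend (Set.subset_univ _)) = s + r := by
      have h1 := Module.finrank_eq_card_basis b0
      rw [Module.finrank_fintype_fun_eq_card] at h1
      simp only [Fintype.card_sum, Fintype.card_fin] at h1
      exact h1.symm
    let f : Fin s → hli.extend (Set.subset_univ _) := fun i =>
      ⟨w i, hli.subset_extend _ ⟨i, rfl⟩⟩
    have hf : Function.Injective f := by
      intro i i' h
      exact hw.injective (Subtype.ext_iff.1 h)
    obtain ⟨e, he⟩ : ∃ e : Fin s ⊕ Fin r ≃ hli.extend (Set.subset_univ _),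
        ∀ i, e (Sum.inl i) = f i := by
      have hc2 : Fintype.card {x // x ∉ Set.range f} = Fintype.card (Fin r) := by
        rw [Fintype.card_subtype_compl, hcard, Fintype.card_fin]
        have : Fintype.card {x // x ∈ Set.range f} = s :=
          (Fintype.card_congr (Equiv.ofInjective f hf)).symm.trans (Fintype.card_fin s)
        rw [this]
        omega
      let e2 : Fin r ≃ {x // x ∉ Set.range f} := (Fintype.equivOfCardEq hc2).symm
      let e1 : Fin s ≃ {x // x ∈ Set.range f} := Equiv.ofInjective f hf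
      refine ⟨(Equiv.sumCongr e1 e2).trans (Equiv.sumCompl (fun x => x ∈ Set.range f)), ?_⟩
      intro i
      rfl
    refine ⟨b0.reindex e.symm, ?_⟩
    intro i
    rw [Module.Basis.reindex_apply, Equiv.symm_symm, he, Module.Basis.extend_apply_self]
  refine ⟨subst b, fun j => quadPoly (α j) (fun v => ∑ u, β j u * b (Sum.inr v) u)
    (fun v v' => bil (γ j) (b (Sum.inr v)) (b (Sum.inr v'))),
    fun j i => C (∑ u, β j u * b (Sum.inl i) u) + ∑ v, C (bil (γ j) (b (Sum.inl i)) (b (Sum.inr v))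
      + bil (γ j) (b (Sum.inr v)) (b (Sum.inl i))) * X v, ?_, ?_⟩
  · intro v
    rw [subst_X]
    refine (totalDegree_finsetSum _ _).trans (Finset.sup_le fun u _ => ?_)
    exact (totalDegree_mul _ _).trans (by rw [totalDegree_C, totalDegree_X])
  · intro j
    rw [hαβγ j, subst_quadPoly]
    refine quadPoly_split _ _ _ ?_ ?_
    · intro i
      rw [hb]
      exact hiso.1 j i
    · intro i i' hii
      rw [hb, hb]
      exact hiso.2 j i i' hii

end Pool.Agent.Helper97.QW
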