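import Mathlib

namespace Pool.Agent.Helper97.QW

open Polynomial

theorem equiv_of_inj {k A K : Type*} [Field k] [CommRing A] [IsDomain A] [Algebra k A] [Field K]
    [Algebra k K] (f : A →ₐ[k] K) (hf : Function.Injective f)
    (hs : ∀ z : K, ∃ a b : A, f b ≠ 0 ∧ z = f a / f b) :
    Nonempty (FractionRing A ≃ₐ[k] K) := by
  let Λ : FractionRing A →ₐ[k] K :=
    IsFractionRing.liftAlgHom (R := k) (A := A) (K := FractionRing A) hf
  have hΛ : ∀ a : A, Λ (algebraMap _ _ a) = f a := fun a => IsFractionRing.lift_algebraMap hf a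
  refine ⟨AlgEquiv.ofBijective Λ ⟨Λ.toRingHom.injective, ?_⟩⟩
  intro z
  obtain ⟨a, b, hb, rfl⟩ := hs z
  exact ⟨algebraMap _ _ a / algebraMap _ _ b, by rw [map_div₀, hΛ, hΛ]⟩

theorem frac_congr {k A A' : Type*} [Field k] [CommRing A] [IsDomain A] [Algebra k A]
    [CommRing A'] [IsDomain A'] [Algebra k A'] (e : A ≃ₐ[k] A') :
    Nonempty (FractionRing A ≃ₐ[k] FractionRing A') := by
  refine equiv_of_inj (((Algebra.ofId A' (FractionRing A')).restrictScalars k).comp e.toAlgHom)
    ?_ ?_
  · exact (IsFractionRing.injective A' (FractionRing A')).comp e.injective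
  · intro z
    obtain ⟨a, b, hb, rfl⟩ := IsFractionRing.div_surjective (A := A') z
    refine ⟨e.symm a, e.symm b, ?_, ?_⟩
    · change algebraMap A' (FractionRing A') (e (e.symm b)) ≠ 0
      rw [e.apply_symm_apply]
      exact IsFractionRing.to_map_ne_zero_of_mem_nonZeroDivisors hb
    · change _ = algebraMap A' (FractionRing A') (e (e.symm a)) /
        algebraMap A' (FractionRing A') (e (e.symm b))
      rw [e.apply_symm_apply, e.apply_symm_apply]

theorem frac_poly {k B : Type*} [Field k] [CommRing B] [IsDomain B] [Algebra k B] :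
    Nonempty (FractionRing B[X] ≃ₐ[k] FractionRing (FractionRing B)[X]) := by
  let i : B →ₐ[k] FractionRing B := (Algebra.ofId B (FractionRing B)).restrictScalars k
  have hi : Function.Injective i := IsFractionRing.injective B (FractionRing B)
  let f : B[X] →ₐ[k] FractionRing (FractionRing B)[X] :=
    ((Algebra.ofId (FractionRing B)[X] (FractionRing (FractionRing B)[X])).restrictScalars k).comp
      (mapAlgHom i)
  have hfi : Function.Injective f :=
    (IsFractionRing.injective (FractionRing B)[X] (FractionRing (FractionRing B)[X])).comp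
      (Polynomial.map_injective (i : B →+* FractionRing B) hi)
  have hpoly : ∀ u : (FractionRing B)[X], ∃ P b : B[X], f b ≠ 0 ∧
      algebraMap _ (FractionRing (FractionRing B)[X]) u = f P / f b := by
    intro u
    obtain ⟨b, hbm, hb⟩ := IsLocalization.integerNormalization_spec (nonZeroDivisors B) u
    have hb0 : (b : B) ≠ 0 := nonZeroDivisors.ne_zero hbm
    have hfb : f (C (b : B)) ≠ 0 := by
      rw [Ne, ← map_zero f]
      exact fun h => hb0 (by simpa using hfi h)
    refine ⟨IsLocalization.integerNormalization (nonZeroDivisors B) u, C (b : B), hfb, ?_⟩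
    rw [eq_div_iff hfb]
    change algebraMap (FractionRing B)[X] (FractionRing (FractionRing B)[X]) u *
      algebraMap (FractionRing B)[X] (FractionRing (FractionRing B)[X])
        (Polynomial.map (i : B →+* FractionRing B) (C (b : B)))
      = algebraMap (FractionRing B)[X] (FractionRing (FractionRing B)[X]) (Polynomial.map (i : B →+* FractionRing B)
        (IsLocalization.integerNormalization (nonZeroDivisors B) u))
    rw [← map_mul]
    congr 1
    have h1 : Polynomial.map (i : B →+* FractionRing B)
        (IsLocalization.integerNormalization (nonZeroDivisors B) u) = (b : B) • u := hb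
    rw [h1, map_C, mul_comm, Algebra.smul_def]
    rfl
  refine equiv_of_inj f hfi ?_
  intro z
  obtain ⟨u, v, hv, rfl⟩ := IsFractionRing.div_surjective (A := (FractionRing B)[X]) z
  obtain ⟨P1, b1, h1, e1⟩ := hpoly u
  obtain ⟨P2, b2, h2, e2⟩ := hpoly v
  have hv0 : algebraMap _ (FractionRing (FractionRing B)[X]) v ≠ 0 :=
    IsFractionRing.to_map_ne_zero_of_mem_nonZeroDivisors hv
  have hP2 : f P2 ≠ 0 := by
    intro h
    rw [e2, h, zero_div] at hv0
    exact hv0 rfl
  refine ⟨P1 * b2, b1 * P2, ?_, ?_⟩
  · rw [map_mul]; exact mul_ne_zero h1 hP2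
  · rw [e1, e2, map_mul, map_mul]
    field_simp

theorem frac_poly_congr {k K K' : Type*} [Field k] [Field K] [Algebra k K]
    [Field K'] [Algebra k K'] (e : K ≃ₐ[k] K') :
    Nonempty (FractionRing K[X] ≃ₐ[k] FractionRing K'[X]) :=
  frac_congr (Polynomial.mapAlgEquiv e)

/-- transitivity of purely transcendental extensions -/
theorem transfer {k A B D : Type*} [Field k] [CommRing A] [IsDomain A] [Algebra k A]
    [CommRing B] [IsDomain B] [Algebra k B] [CommRing D] [IsDomain D] [Algebra k D] {e : ℕ}
    (h1 : Nonempty (FractionRing A ≃ₐ[k] FractionRing B[X]))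
    (h2 : Nonempty (FractionRing B ≃ₐ[k] FractionRing (MvPolynomial (Fin e) D))) :
    Nonempty (FractionRing A ≃ₐ[k] FractionRing (MvPolynomial (Fin (e + 1)) D)) := by
  obtain ⟨e1⟩ := h1
  obtain ⟨e2⟩ := h2
  obtain ⟨e3⟩ := frac_poly (k := k) (B := B)
  obtain ⟨e4⟩ := frac_poly_congr (k := k) e2
  obtain ⟨e5⟩ := frac_poly (k := k) (B := MvPolynomial (Fin e) D)
  obtain ⟨e6⟩ := frac_congr (k := k)
    ((MvPolynomial.finSuccEquiv D e).restrictScalars k)
  exact ⟨e1.trans (e3.trans (e4.trans (e5.symm.trans e6.symm)))⟩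

end Pool.Agent.Helper97.QW
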