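import Mathlib
import Pool.Agent.Helper97.QW.CaseA
import Pool.Agent.Helper97.QW.Coords3
import Pool.Agent.Helper97.QW.Transfer

namespace Pool.Agent.Helper97.QW

open MvPolynomial

lemma totalDegree_hom_le {k σ σ' : Type*} [Field k] (f : MvPolynomial σ k →ₐ[k] MvPolynomial σ' k)
    (hf : ∀ v, (f (X v)).totalDegree ≤ 1) (P : MvPolynomial σ k) :
    (f P).totalDegree ≤ P.totalDegree := by
  classical
  have h1 : f P = ∑ m ∈ P.support, f (monomial m (coeff m P)) := by
    rw [← map_sum, ← P.as_sum]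
  rw [h1]
  refine (totalDegree_finsetSum _ _).trans (Finset.sup_le fun m hm => ?_)
  refine le_trans ?_ (le_totalDegree hm)
  rw [monomial_eq, map_mul]
  refine (totalDegree_mul _ _).trans ?_
  have h2 : (f (C (coeff m P))).totalDegree = 0 := by
    have : f (C (coeff m P)) = C (coeff m P) := AlgHom.commutes f _
    rw [this, totalDegree_C]
  rw [h2, zero_add, Finsupp.prod, map_prod]
  refine (totalDegree_finset_prod _ _).trans ?_
  rw [Finsupp.sum]
  refine Finset.sum_le_sum fun v _ => ?_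
  rw [map_pow]
  refine (totalDegree_pow _ _).trans ?_
  calc m v * (f (X v)).totalDegree ≤ m v * 1 := Nat.mul_le_mul_left _ (hf v)
    _ = m v := mul_one _

lemma map_pre_surj {k R R' : Type*} [Field k] [CommRing R] [Algebra k R] [CommRing R']
    [Algebra k R'] {s : ℕ} (Q : Fin s → R) (J : Ideal (MvPolynomial (Fin s) k))
    (f : R →ₐ[k] R') : (pre Q J).map f = pre (fun j => f (Q j)) J := by
  apply le_antisymm
  · rw [Ideal.map_le_iff_le_comap]
    intro x hx
    exact map_pre_le Q J f x hx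
  · apply pre_le
    intro P hP
    rw [← aeval_comp' Q f]
    exact Ideal.mem_map_of_mem _ (mem_pre Q hP)

/-- transport along an isomorphism -/
theorem transport {k R R' : Type*} [Field k] [CommRing R] [Algebra k R] [CommRing R']
    [Algebra k R'] {s : ℕ} (Q : Fin s → R) (J : Ideal (MvPolynomial (Fin s) k))
    (e : R ≃ₐ[k] R') [hp : (pre Q J).IsPrime] :
    ∃ _ : (pre (fun j => e (Q j)) J).IsPrime,
      Nonempty (FractionRing (R ⧸ pre Q J) ≃ₐ[k]
        FractionRing (R' ⧸ pre (fun j => e (Q j)) J)) := by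
  have h1 : (pre Q J).map (e : R →+* R') = pre (fun j => e (Q j)) J :=
    map_pre_surj Q J e.toAlgHom
  have hprime : (pre (fun j => e (Q j)) J).IsPrime := by
    rw [← h1]
    exact Ideal.map_isPrime_of_equiv (e : R ≃+* R')
  refine ⟨hprime, ?_⟩
  exact frac_congr (Ideal.quotientEquivAlg _ _ e h1.symm)

/-- specialisation of one variable -/
noncomputable def spec {k σ : Type*} [Field k] [DecidableEq σ] (v0 : σ) (τ : k) {n : ℕ}
    (e : {v : σ // v ≠ v0} ≃ Fin n) : MvPolynomial σ k →ₐ[k] MvPolynomial (Fin n) k :=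
  aeval (fun v => if h : v = v0 then C τ else X (e ⟨v, h⟩))

lemma spec_X {k σ : Type*} [Field k] [DecidableEq σ] (v0 : σ) (τ : k) {n : ℕ}
    (e : {v : σ // v ≠ v0} ≃ Fin n) (v : σ) :
    spec v0 τ e (X v) = if h : v = v0 then C τ else X (e ⟨v, h⟩) := aeval_X _ _

/-- a section of the specialisation -/
noncomputable def sect {k σ : Type*} [Field k] (v0 : σ) {n : ℕ}
    (e : {v : σ // v ≠ v0} ≃ Fin n) : MvPolynomial (Fin n) k →ₐ[k] MvPolynomial σ k :=
  aeval (fun i => X (e.symm i).1)

lemma spec_sect {k σ : Type*} [Field k] [DecidableEq σ] (v0 : σ) (τ : k) {n : ℕ}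
    (e : {v : σ // v ≠ v0} ≃ Fin n) (P : MvPolynomial (Fin n) k) :
    spec v0 τ e (sect v0 e P) = P := by
  have : (spec v0 τ e).comp (sect v0 e) = AlgHom.id k _ := by
    apply MvPolynomial.algHom_ext
    intro i
    rw [AlgHom.comp_apply, sect, aeval_X, spec_X, dif_neg (e.symm i).2]
    simp
  exact AlgHom.congr_fun this P

lemma sect_spec {k σ : Type*} [Field k] [DecidableEq σ] (v0 : σ) (τ : k) {n : ℕ}
    (e : {v : σ // v ≠ v0} ≃ Fin n) (P : MvPolynomial σ k) :
    sect v0 e (spec v0 τ e P) - P ∈ Ideal.span {(X v0 - C τ : MvPolynomial σ k)} := by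
  induction P using MvPolynomial.induction_on with
  | C a =>
    have h1 : spec v0 τ e (C a) = C a := AlgHom.commutes _ _
    have h2 : sect v0 e (C a : MvPolynomial (Fin n) k) = C a := AlgHom.commutes _ _
    rw [h1, h2, sub_self]
    exact Ideal.zero_mem _
  | add f g hf hg =>
    rw [map_add, map_add, add_sub_add_comm]
    exact Ideal.add_mem _ hf hg
  | mul_X f v hf =>
    have h1 : sect v0 e (spec v0 τ e (X v : MvPolynomial σ k)) - X v ∈
        Ideal.span {(X v0 - C τ : MvPolynomial σ k)} := by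
      rw [spec_X]
      split_ifs with h
      · have h2 : sect v0 e (C τ : MvPolynomial (Fin n) k) = C τ := AlgHom.commutes _ _
        have h4 : (C τ - X v : MvPolynomial σ k) = -(X v0 - C τ) := by rw [h]; ring
        rw [h2, h4]
        exact Submodule.neg_mem _ (Ideal.mem_span_singleton_self _)
      · rw [sect, aeval_X, e.symm_apply_apply, sub_self]
        exact Ideal.zero_mem _
    rw [map_mul, map_mul]
    have h3 : sect v0 e (spec v0 τ e f) * sect v0 e (spec v0 τ e (X v)) - f * X v =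
        (sect v0 e (spec v0 τ e f) - f) * sect v0 e (spec v0 τ e (X v)) +
          f * (sect v0 e (spec v0 τ e (X v)) - X v) := by ring
    rw [h3]
    exact Ideal.add_mem _ (Ideal.mul_mem_right _ _ hf) (Ideal.mul_mem_left _ _ h1)

lemma spec_map_eq {k σ : Type*} [Field k] [DecidableEq σ] (v0 : σ) (τ : k) {n : ℕ}
    (e : {v : σ // v ≠ v0} ≃ Fin n) (p : Ideal (MvPolynomial σ k)) :
    (p ⊔ Ideal.span {X v0 - C τ}) = (p.map (spec v0 τ e)).comap (spec v0 τ e) := by
  have hv0 : spec v0 τ e (X v0 - C τ) = 0 := by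
    have h1 : spec v0 τ e (C τ) = C τ := AlgHom.commutes _ _
    rw [map_sub, h1, spec_X, dif_pos rfl, sub_self]
  apply le_antisymm
  · refine sup_le Ideal.le_comap_map ?_
    rw [Ideal.span_le, Set.singleton_subset_iff, SetLike.mem_coe, Ideal.mem_comap, hv0]
    exact Ideal.zero_mem _
  · intro f hf
    rw [Ideal.mem_comap] at hf
    have hsurj : Function.Surjective (spec v0 τ e : MvPolynomial σ k →ₐ[k] _) :=
      fun P => ⟨sect v0 e P, spec_sect v0 τ e P⟩
    obtain ⟨g, hg, hgf⟩ := (Ideal.mem_map_iff_of_surjective _ hsurj).1 hf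
    have h1 : f = g + (f - g) := by ring
    rw [h1]
    refine Ideal.add_mem _ (Ideal.mem_sup_left hg) (Ideal.mem_sup_right ?_)
    have h2 := sect_spec v0 τ e (f - g)
    have h3 : spec v0 τ e (f - g) = 0 := by rw [map_sub, hgf, sub_self]
    rw [h3, map_zero, zero_sub] at h2
    simpa using neg_mem h2

/-- one reduction step -/
theorem step_fin {k : Type*} [Field k] [Infinite k] {s m r n : ℕ} (hn : m + r = n + 1)
    (Q : Fin s → MvPolynomial (Fin m ⊕ Fin r) k)
    (a : Fin s → MvPolynomial (Fin r) k) (l : Fin s → Fin m → MvPolynomial (Fin r) k)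
    (hQ : ∀ j, Q j = rename Sum.inr (a j) + ∑ i, X (Sum.inl i) * rename Sum.inr (l j i))
    (J : Ideal (MvPolynomial (Fin s) k)) [hp : (pre Q J).IsPrime]
    (c : Fin m → MvPolynomial (Fin r) k) (i0 : Fin m)
    (hc0 : rename Sum.inr (c i0) ∉ pre Q J)
    (hc : ∀ j, rename Sum.inr (∑ i, l j i * c i) ∈ pre Q J) :
    ∃ φ : MvPolynomial (Fin m ⊕ Fin r) k →ₐ[k] MvPolynomial (Fin n) k,
      Function.Surjective φ ∧ (∀ v, (φ (X v)).totalDegree ≤ 1) ∧
      ∃ _ : (pre (fun j => φ (Q j)) J).IsPrime,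
      Nonempty (FractionRing (MvPolynomial (Fin m ⊕ Fin r) k ⧸ pre Q J) ≃ₐ[k]
        FractionRing (Polynomial (MvPolynomial (Fin n) k ⧸ pre (fun j => φ (Q j)) J))) := by
  classical
  have hfin := step Q a l hQ J c i0 hc0 hc
  obtain ⟨τ, hτ⟩ := hfin.infinite_compl.nonempty
  simp only [Set.mem_compl_iff, Set.mem_setOf_eq, not_not] at hτ
  obtain ⟨hprime, ⟨eF⟩⟩ := hτ
  have hcard : Fintype.card {v : Fin m ⊕ Fin r // v ≠ Sum.inl i0} = Fintype.card (Fin n) := by
    rw [Fintype.card_subtype_compl, Fintype.card_sum, Fintype.card_fin, Fintype.card_fin,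
      Fintype.card_fin]
    simp
    omega
  let e := Fintype.equivOfCardEq hcard
  let φ := spec (k := k) (Sum.inl i0 : Fin m ⊕ Fin r) τ e
  have hsurj : Function.Surjective φ := fun P => ⟨sect _ e P, spec_sect _ τ e P⟩
  have hmap : (pre Q J).map φ = pre (fun j => φ (Q j)) J := map_pre_surj Q J φ
  have hcomap : (pre Q J ⊔ Ideal.span {X (Sum.inl i0) - C τ}) =
      (pre (fun j => φ (Q j)) J).comap φ := by
    rw [← hmap]
    exact spec_map_eq _ τ e _
  have hprime' : (pre (fun j => φ (Q j)) J).IsPrime := by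
    have h1 : ((pre Q J ⊔ Ideal.span {X (Sum.inl i0) - C τ}).map φ).IsPrime := by
      apply Ideal.map_isPrime_of_surjective hsurj
      intro f hf
      rw [hcomap, Ideal.mem_comap]
      have : φ f = 0 := hf
      rw [this]
      exact Ideal.zero_mem _
    rw [hcomap, Ideal.map_comap_of_surjective _ hsurj] at h1
    exact h1
  refine ⟨φ, hsurj, ?_, hprime', ?_⟩
  · intro v
    rw [spec_X]
    split_ifs
    · rw [totalDegree_C]; omega
    · rw [totalDegree_X]
  · -- identification of the quotients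
    let q := pre Q J ⊔ Ideal.span {X (Sum.inl i0) - C τ}
    let θ : (MvPolynomial (Fin m ⊕ Fin r) k ⧸ q) →ₐ[k]
        (MvPolynomial (Fin n) k ⧸ pre (fun j => φ (Q j)) J) :=
      Ideal.quotientMapₐ _ φ (le_of_eq hcomap)
    have hθ : Function.Bijective θ := by
      constructor
      · exact Ideal.quotientMap_injective' (H := le_of_eq hcomap) (le_of_eq hcomap.symm)
      · exact Ideal.quotientMap_surjective (H := le_of_eq hcomap) hsurj
    let eθ := AlgEquiv.ofBijective θ hθ
    obtain ⟨eF2⟩ := frac_congr (k := k) (Polynomial.mapAlgEquiv eθ)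
    exact ⟨eF.trans eF2⟩

end Pool.Agent.Helper97.QW
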