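import Mathlib
import Pool.Agent.Helper97.QW.Main

namespace Pool.Agent.Helper97.QW

open MvPolynomial

/-- one step of the induction on the number `n + 1` of variables -/
theorem one_step {k : Type*} [Field k] [IsAlgClosed k] {s n : ℕ} (hn : s * s + s ≤ n + 1)
    (Q : Fin s → MvPolynomial (Fin (n + 1)) k) (hQ : ∀ j, (Q j).totalDegree ≤ 2)
    (J : Ideal (MvPolynomial (Fin s) k)) [hp : (pre Q J).IsPrime] :
    (J.IsPrime ∧ Nonempty (FractionRing (MvPolynomial (Fin (n + 1)) k ⧸ pre Q J) ≃ₐ[k]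
      FractionRing (MvPolynomial (Fin (n + 1 - s)) (MvPolynomial (Fin s) k ⧸ J)))) ∨
    ∃ φ : MvPolynomial (Fin (n + 1)) k →ₐ[k] MvPolynomial (Fin n) k,
      Function.Surjective φ ∧ (∀ v, (φ (X v)).totalDegree ≤ 1) ∧
      ∃ _ : (pre (fun j => φ (Q j)) J).IsPrime,
      Nonempty (FractionRing (MvPolynomial (Fin (n + 1)) k ⧸ pre Q J) ≃ₐ[k]
        FractionRing (Polynomial (MvPolynomial (Fin n) k ⧸ pre (fun j => φ (Q j)) J))) := by
  classical
  obtain ⟨r, hr⟩ : ∃ r, n + 1 = s + r := ⟨n + 1 - s, by omega⟩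
  have hsr : n + 1 - s = r := by omega
  let e0 : Fin (n + 1) ≃ Fin s ⊕ Fin r := (finCongr hr).trans finSumFinEquiv.symm
  let E0 : MvPolynomial (Fin (n + 1)) k ≃ₐ[k] MvPolynomial (Fin s ⊕ Fin r) k := renameEquiv k e0
  have hE0 : ∀ v, E0 (X v) = X (e0 v) := fun v => rename_X _ _
  have hdeg0 : ∀ j, (E0 (Q j)).totalDegree ≤ 2 := fun j =>
    (totalDegree_hom_le E0.toAlgHom (fun v => by
      change (E0 (X v)).totalDegree ≤ 1
      rw [hE0, totalDegree_X]) (Q j)).trans (hQ j)
  obtain ⟨Φ, a, l, hΦX, hΦ⟩ := exists_coords (k := k) (s := s) (r := r) (by omega)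
    (fun j => E0 (Q j)) hdeg0
  let Ψ : MvPolynomial (Fin (n + 1)) k ≃ₐ[k] MvPolynomial (Fin s ⊕ Fin r) k := E0.trans Φ
  have hΨX : ∀ v, (Ψ (X v)).totalDegree ≤ 1 := by
    intro v
    change (Φ (E0 (X v))).totalDegree ≤ 1
    rw [hE0]
    exact hΦX _
  obtain ⟨hp', ⟨eT⟩⟩ := transport Q J Ψ
  have hΨ : ∀ j, Ψ (Q j) = rename Sum.inr (a j) + ∑ i, X (Sum.inl i) * rename Sum.inr (l j i) :=
    hΦ
  by_cases hdet : rename Sum.inr (Matrix.det (Matrix.of l)) ∈ pre (fun j => Ψ (Q j)) J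
  · right
    obtain ⟨c, ⟨i0, hc0⟩, hc⟩ := exists_kernel l _ hdet
    obtain ⟨φ, hφs, hφd, hφp, ⟨eφ⟩⟩ := step_fin (n := n) (by omega) (fun j => Ψ (Q j)) a l hΨ J c i0
      hc0 hc
    refine ⟨φ.comp Ψ.toAlgHom, hφs.comp Ψ.surjective, ?_, hφp, ⟨eT.trans eφ⟩⟩
    intro v
    exact (totalDegree_hom_le φ hφd _).trans (hΨX v)
  · left
    obtain ⟨hJ, ⟨eA⟩⟩ := caseA (fun j => Ψ (Q j)) a l hΨ J hdet
    refine ⟨hJ, ?_⟩
    rw [hsr]
    exact ⟨eT.trans eA⟩

/-- the trivial case -/
theorem base_case {k : Type*} [Field k] {s : ℕ} (J : Ideal (MvPolynomial (Fin s) k)) (n N : ℕ)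
    (hN : N = n) (Q : Fin s → MvPolynomial (Fin n) k) (hp : (pre Q J).IsPrime) :
    ∃ φ : MvPolynomial (Fin n) k →ₐ[k] MvPolynomial (Fin N) k,
      Function.Surjective φ ∧ (∀ v, (φ (X v)).totalDegree ≤ 1) ∧
      ∃ _ : (pre (fun j => φ (Q j)) J).IsPrime,
      Nonempty (FractionRing (MvPolynomial (Fin n) k ⧸ pre Q J) ≃ₐ[k]
        FractionRing (MvPolynomial (Fin (n - N))
          (MvPolynomial (Fin N) k ⧸ pre (fun j => φ (Q j)) J))) := by
  subst hN
  refine ⟨AlgHom.id k _, Function.surjective_id, fun v => by simp, hp, ?_⟩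
  have h0 : N - N = 0 := by omega
  rw [h0]
  have hp' : (pre (fun j => (AlgHom.id k (MvPolynomial (Fin N) k)) (Q j)) J).IsPrime := hp
  exact frac_congr (k := k) ((isEmptyAlgEquiv (MvPolynomial (Fin N) k ⧸ pre Q J)
    (Fin 0)).symm.restrictScalars k)

/-- unirationality of a field extension: `F` embeds over `k` in some `k(t_1, …, t_m)` -/
def Unirational (k F : Type*) [Field k] [CommRing F] [Algebra k F] : Prop :=
  ∃ m : ℕ, Nonempty (F →ₐ[k] FractionRing (MvPolynomial (Fin m) k))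

theorem Unirational.congr {k F F' : Type*} [Field k] [CommRing F] [Algebra k F] [CommRing F']
    [Algebra k F'] (e : F ≃ₐ[k] F') : Unirational k F ↔ Unirational k F' := by
  constructor
  · rintro ⟨m, ⟨f⟩⟩
    exact ⟨m, ⟨f.comp e.symm.toAlgHom⟩⟩
  · rintro ⟨m, ⟨f⟩⟩
    exact ⟨m, ⟨f.comp e.toAlgHom⟩⟩

/-- functoriality of `K ↦ K(Y)` -/
theorem map_fracPoly {k K L : Type*} [Field k] [Field K] [Algebra k K] [Field L] [Algebra k L]
    (g : K →ₐ[k] L) : Nonempty (FractionRing (Polynomial K) →ₐ[k] FractionRing (Polynomial L)) := by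
  let f : Polynomial K →ₐ[k] FractionRing (Polynomial L) :=
    ((Algebra.ofId (Polynomial L) (FractionRing (Polynomial L))).restrictScalars k).comp
      (Polynomial.mapAlgHom g)
  have hf : Function.Injective f :=
    (IsFractionRing.injective (Polynomial L) (FractionRing (Polynomial L))).comp
      (Polynomial.map_injective (g : K →+* L) g.toRingHom.injective)
  exact ⟨IsFractionRing.liftAlgHom (R := k) (A := Polynomial K)
    (K := FractionRing (Polynomial K)) hf⟩

theorem Unirational.poly {k B : Type*} [Field k] [CommRing B] [IsDomain B] [Algebra k B] :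
    Unirational k (FractionRing (Polynomial B)) ↔ Unirational k (FractionRing B) := by
  obtain ⟨e⟩ := frac_poly (k := k) (B := B)
  rw [Unirational.congr e]
  constructor
  · rintro ⟨m, ⟨f⟩⟩
    exact ⟨m, ⟨f.comp (((Algebra.ofId (Polynomial (FractionRing B))
      (FractionRing (Polynomial (FractionRing B)))).restrictScalars k).comp
      ((Algebra.ofId (FractionRing B) (Polynomial (FractionRing B))).restrictScalars k))⟩⟩
  · rintro ⟨m, ⟨f⟩⟩
    obtain ⟨g⟩ := map_fracPoly f
    obtain ⟨e5⟩ := frac_poly (k := k) (B := MvPolynomial (Fin m) k)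
    obtain ⟨e6⟩ := frac_congr (k := k) (finSuccEquiv k m)
    exact ⟨m + 1, ⟨(e6.symm.toAlgHom.comp e5.symm.toAlgHom).comp g⟩⟩

theorem Unirational.mvPoly {k D : Type*} [Field k] [CommRing D] [IsDomain D] [Algebra k D]
    (e : ℕ) : Unirational k (FractionRing (MvPolynomial (Fin e) D)) ↔
      Unirational k (FractionRing D) := by
  induction e with
  | zero =>
    obtain ⟨e0⟩ := frac_congr (k := k) ((isEmptyAlgEquiv D (Fin 0)).restrictScalars k)
    exact Unirational.congr e0
  | succ e ih =>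
    obtain ⟨e6⟩ := frac_congr (k := k) ((finSuccEquiv D e).restrictScalars k)
    rw [Unirational.congr e6, Unirational.poly, ih]

/-- the main theorem -/
theorem main {k : Type*} [Field k] [IsAlgClosed k] {s : ℕ} (J : Ideal (MvPolynomial (Fin s) k)) :
    ∀ (n : ℕ) (_ : s * s + s - 1 ≤ n) (Q : Fin s → MvPolynomial (Fin n) k)
      (_ : ∀ j, (Q j).totalDegree ≤ 2) (_ : (pre Q J).IsPrime),
    (J.IsPrime ∧ Nonempty (FractionRing (MvPolynomial (Fin n) k ⧸ pre Q J) ≃ₐ[k]
      FractionRing (MvPolynomial (Fin (n - s)) (MvPolynomial (Fin s) k ⧸ J)))) ∨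
    ∃ φ : MvPolynomial (Fin n) k →ₐ[k] MvPolynomial (Fin (s * s + s - 1)) k,
      Function.Surjective φ ∧ (∀ v, (φ (X v)).totalDegree ≤ 1) ∧
      ∃ _ : (pre (fun j => φ (Q j)) J).IsPrime,
      Nonempty (FractionRing (MvPolynomial (Fin n) k ⧸ pre Q J) ≃ₐ[k]
        FractionRing (MvPolynomial (Fin (n - (s * s + s - 1)))
          (MvPolynomial (Fin (s * s + s - 1)) k ⧸ pre (fun j => φ (Q j)) J))) := by
  intro n
  induction n with
  | zero =>
    intro hn Q hQ hp
    exact Or.inr (base_case J 0 _ (by omega) Q hp)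
  | succ n ih =>
    intro hn Q hQ hp
    by_cases hle : s * s + s ≤ n + 1
    · rcases one_step hle Q hQ J with h | ⟨φ, hφs, hφd, hφp, hφe⟩
      · exact Or.inl h
      · have hdeg : ∀ j, (φ (Q j)).totalDegree ≤ 2 := fun j =>
          (totalDegree_hom_le φ hφd (Q j)).trans (hQ j)
        rcases ih (by omega) (fun j => φ (Q j)) hdeg hφp with ⟨hJ, hA⟩ | ⟨φ', hs', hd', hp', hB⟩
        · left
          refine ⟨hJ, ?_⟩
          have h1 := transfer hφe hA
          have h2 : n - s + 1 = n + 1 - s := by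
            have : s ≤ s * s := Nat.le_mul_self s
            omega
          rwa [h2] at h1
        · right
          refine ⟨φ'.comp φ, hs'.comp hφs, ?_, hp', ?_⟩
          · intro v
            exact (totalDegree_hom_le φ' hd' _).trans (hφd v)
          · have h1 := transfer hφe hB
            have h2 : n - (s * s + s - 1) + 1 = n + 1 - (s * s + s - 1) := by omega
            rw [h2] at h1
            exact h1
    · exact Or.inr (base_case J (n + 1) _ (by omega) Q hp)

end Pool.Agent.Helper97.QW
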